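import Pool.Agent.Lib.PFR.PFR1
import Pool.Agent.Lib.BSG.PFRK

/-!
# PFR.Comb: the export used by `Lib/BSG`
-/

set_option autoImplicit false

namespace Pool.Agent.Lib.PFR

open scoped Pointwise

/-- the hypothesis of `BSG.pfrk` holds with exponent `11` -/
theorem bsg_pfr1 : BSG.PFR1 11 := by
  classical
  intro G _ _ _ h2 A hA M hM
  obtain ⟨H, x, _, h3, h4⟩ := pfr h2 A hA M hM
  have h0 : (0 : ℝ) < A.card := by exact_mod_cast hA.card_pos
  have hM0 : 0 < M := by
    have h1 : (0 : ℝ) < (A + A).card := by exact_mod_cast (hA.add hA).card_pos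
    by_contra h
    push Not at h
    nlinarith
  refine ⟨H, coi A H x, fun a ha => (mem_coi.1 ha).1, fun a ha b hb => ?_, h3, ?_⟩
  · have h5 := H.sub_mem (mem_coi.1 ha).2 (mem_coi.1 hb).2
    rwa [add_sub_add_left_eq_sub] at h5
  · refine le_trans h4 (mul_le_mul_of_nonneg_left ?_ (pow_pos hM0 11).le)
    have h5 : (coi A H x).card ≤ A.card := Finset.card_le_card (fun a ha => (mem_coi.1 ha).1)
    exact_mod_cast h5

end Pool.Agent.Lib.PFR
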