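import Pool.Agent.Lib.PFR.Rd

/-!
# PFR.Bsg: the entropic Balog-Szemeredi-Gowers lemma
-/

set_option autoImplicit false
set_option linter.unusedSectionVars false

namespace Pool.Agent.Lib.PFR

open Real

variable {G : Type} [AddCommGroup G] [Fintype G]

theorem add_self_cancel_left (h2 : ∀ g : G, g + g = 0) (a b : G) : a + (a + b) = b := by
  rw [← add_assoc, h2, zero_add]

theorem eq_add_of_add_eq (h2 : ∀ g : G, g + g = 0) {a b c : G} (h : a + b = c) : a = c + b := by
  rw [← h, add_assoc, h2, add_zero]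

/-- the entropic Balog-Szemeredi-Gowers lemma in characteristic two -/
theorem bsg (h2 : ∀ g : G, g + g = 0) {Ω : Type} [Fintype Ω] {μ : Ω → ℝ} (hμ : PM μ)
    (A B Z : Ω → G) (hZ : ∀ ω, A ω + B ω = Z ω) :
    ∑ z, prb μ Z z * rd (cnd μ Z z) (cnd μ Z z) A B ≤
      2 * ent μ A + 2 * ent μ B - 3 * ent μ (fun ω => (A ω, B ω)) + 2 * ent μ Z := by
  have hc := hμ.cip Z
  -- the left-hand side
  have e1 : ∑ z, prb μ Z z * rd (cnd μ Z z) (cnd μ Z z) A B =
      ent (cip μ Z) (fun w => (A w.1 + B w.2, Z w.1)) - ent μ (fun ω => (A ω, B ω)) := by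
    unfold rd
    simp_rw [mul_sub, ← mul_div_assoc]
    rw [Finset.sum_sub_distrib, Finset.sum_sub_distrib, ← Finset.sum_div, ← Finset.sum_div,
      ent_cip hμ Z (fun w : Ω × Ω => A w.1 + B w.2), ent_cnd hμ, ent_cnd hμ]
    have a1 : ent μ (fun ω => (A ω, Z ω)) = ent μ (fun ω => (A ω, B ω)) := by
      refine ent_congr (fun ω ω' => ?_)
      simp only [Prod.mk.injEq, ← hZ]
      constructor
      · rintro ⟨b1, b2⟩
        rw [b1] at b2
        exact ⟨b1, add_left_cancel b2⟩
      · rintro ⟨b1, b2⟩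
        rw [b1, b2]
        exact ⟨rfl, rfl⟩
    have a2 : ent μ (fun ω => (B ω, Z ω)) = ent μ (fun ω => (A ω, B ω)) := by
      refine ent_congr (fun ω ω' => ?_)
      simp only [Prod.mk.injEq, ← hZ]
      constructor
      · rintro ⟨b1, b2⟩
        rw [b1] at b2
        exact ⟨add_right_cancel b2, b1⟩
      · rintro ⟨b1, b2⟩
        rw [b1, b2]
        exact ⟨rfl, rfl⟩
    rw [a1, a2]
    ring
  have e2 : ent (cip μ Z) (fun w => (A w.1 + B w.2, Z w.1)) ≤
      ent (cip μ Z) (fun w => A w.1 + B w.2) + ent μ Z := by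
    have h := ent_pair_le hc (fun w => A w.1 + B w.2) (fun w => Z w.1)
    rwa [ent_cip_fst hμ] at h
  -- submodularity
  have h3 := ent_submod hc (fun w => A w.1) (fun w => B w.1) (fun w => A w.1 + B w.2)
  -- the support of the copies
  have hsup : ∀ w : Ω × Ω, cip μ Z w ≠ 0 → A w.1 + B w.1 = A w.2 + B w.2 := by
    intro w hw
    rw [hZ, hZ]
    by_contra h
    exact hw (if_neg h)
  have key : ∀ {α β : Type} (f : Ω × Ω → α) (g : Ω × Ω → β),
      (∀ w w' : Ω × Ω, A w.1 + B w.1 = A w.2 + B w.2 → A w'.1 + B w'.1 = A w'.2 + B w'.2 →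
        (f w = f w' ↔ g w = g w')) → ent (cip μ Z) f = ent (cip μ Z) g := by
    intro α β f g h
    unfold ent
    refine Finset.sum_congr rfl (fun w _ => ?_)
    by_cases hw : cip μ Z w = 0
    · rw [hw, zero_mul, zero_mul]
    · have h5 : prb (cip μ Z) f (f w) = prb (cip μ Z) g (g w) := by
        classical
        unfold prb
        refine Finset.sum_congr rfl (fun w' _ => ?_)
        by_cases hw' : cip μ Z w' = 0
        · rw [hw']
          simp
        · have h6 := h w' w (hsup w' hw') (hsup w hw)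
          by_cases h7 : f w' = f w
          · rw [if_pos h7, if_pos (h6.1 h7)]
          · rw [if_neg h7, if_neg (fun h8 => h7 (h6.2 h8))]
      rw [h5]
  have e3 : ent (cip μ Z) (fun w => (A w.1, B w.1, A w.1 + B w.2)) =
      2 * ent μ (fun ω => (A ω, B ω)) - ent μ Z := by
    have a1 := ent_cip_pair hμ Z (fun ω => (A ω, B ω)) (fun ω => (A ω, B ω))
    have a2 : ent (cip μ Z) (fun w => (A w.1, B w.1, A w.1 + B w.2)) =
        ent (cip μ Z) (fun w => (((A w.1, B w.1), (A w.2, B w.2)), Z w.1)) := by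
      refine key _ _ (fun w w' hw hw' => ?_)
      simp only [Prod.mk.injEq, ← hZ]
      constructor
      · rintro ⟨b1, b2, b3⟩
        rw [b1] at b3
        have b4 := add_left_cancel b3
        refine ⟨⟨⟨b1, b2⟩, ?_, b4⟩, ?_⟩
        · rw [b1, b2, b4, hw'] at hw
          exact (add_right_cancel hw).symm
        · rw [b1, b2]
      · rintro ⟨⟨⟨b1, b2⟩, b3, b4⟩, _⟩
        rw [b1, b2, b4]
        exact ⟨rfl, rfl, rfl⟩
    have a3 : ent μ (fun ω => ((A ω, B ω), Z ω)) = ent μ (fun ω => (A ω, B ω)) := by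
      refine ent_congr (fun ω ω' => ?_)
      simp only [Prod.mk.injEq, ← hZ]
      constructor
      · rintro ⟨⟨b1, b2⟩, _⟩
        exact ⟨b1, b2⟩
      · rintro ⟨b1, b2⟩
        rw [b1, b2]
        exact ⟨⟨rfl, rfl⟩, rfl⟩
    rw [a2, a1, a3]
    ring
  have e4 : ent (cip μ Z) (fun w => (A w.1, A w.1 + B w.2)) ≤ ent μ A + ent μ B := by
    have a1 : ent (cip μ Z) (fun w => (A w.1, A w.1 + B w.2)) =
        ent (cip μ Z) (fun w => (A w.1, B w.2)) := by
      refine ent_congr (fun w w' => ?_)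
      simp only [Prod.mk.injEq]
      constructor
      · rintro ⟨b1, b2⟩
        rw [b1] at b2
        exact ⟨b1, add_left_cancel b2⟩
      · rintro ⟨b1, b2⟩
        rw [b1, b2]
        exact ⟨rfl, rfl⟩
    have a2 := ent_pair_le hc (fun w => A w.1) (fun w => B w.2)
    rw [ent_cip_fst hμ, ent_cip_snd hμ] at a2
    rw [a1]
    exact a2
  have e5 : ent (cip μ Z) (fun w => (B w.1, A w.1 + B w.2)) ≤ ent μ A + ent μ B := by
    have a1 : ent (cip μ Z) (fun w => (B w.1, A w.1 + B w.2)) =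
        ent (cip μ Z) (fun w => (B w.1, A w.2)) := by
      refine key _ _ (fun w w' hw hw' => ?_)
      have c1 : ∀ w : Ω × Ω, A w.1 + B w.1 = A w.2 + B w.2 →
          A w.1 + B w.2 = A w.2 + B w.1 := by
        intro w hw
        have c2 := eq_add_of_add_eq h2 hw
        rw [c2, add_assoc, add_assoc, add_comm (B w.1), ← add_assoc (B w.2), h2, zero_add]
      rw [c1 w hw, c1 w' hw']
      simp only [Prod.mk.injEq]
      constructor
      · rintro ⟨b1, b2⟩
        rw [b1] at b2
        exact ⟨b1, add_right_cancel b2⟩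
      · rintro ⟨b1, b2⟩
        rw [b1, b2]
        exact ⟨rfl, rfl⟩
    have a2 := ent_pair_le hc (fun w => B w.1) (fun w => A w.2)
    rw [ent_cip_fst hμ, ent_cip_snd hμ] at a2
    rw [a1]
    linarith
  rw [e1]
  linarith

end Pool.Agent.Lib.PFR
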