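import Pool.Agent.Lib.PFR.Ent

/-!
# PFR.Cnd: conditioning, conditionally independent copies
-/

set_option autoImplicit false

namespace Pool.Agent.Lib.PFR

open Real

section cnd

variable {Ω : Type} [Fintype Ω] {μ : Ω → ℝ}

open scoped Classical in
/-- conditioning on `Z = z` -/
noncomputable def cnd (μ : Ω → ℝ) {ι : Type} (Z : Ω → ι) (z : ι) : Ω → ℝ :=
  fun ω => if Z ω = z then μ ω / prb μ Z z else 0

theorem cnd_of_eq {ι : Type} (Z : Ω → ι) (z : ι) {ω : Ω} (h : Z ω = z) :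
    cnd μ Z z ω = μ ω / prb μ Z z := if_pos h

theorem cnd_of_ne {ι : Type} (Z : Ω → ι) (z : ι) {ω : Ω} (h : Z ω ≠ z) :
    cnd μ Z z ω = 0 := if_neg h

theorem prb_mul_cnd (hμ : PM μ) {ι : Type} (Z : Ω → ι) (ω : Ω) :
    prb μ Z (Z ω) * cnd μ Z (Z ω) ω = μ ω := by
  rw [cnd_of_eq Z _ rfl]
  rcases (hμ.nonneg ω).lt_or_eq with h0 | h0
  · exact mul_div_cancel₀ _ (prb_pos hμ Z ω h0).ne'
  · rw [← h0]
    simp

theorem PM.cnd (hμ : PM μ) {ι : Type} (Z : Ω → ι) (z : ι) (hz : prb μ Z z ≠ 0) :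
    PM (cnd μ Z z) := by
  classical
  constructor
  · intro ω
    by_cases h : Z ω = z
    · rw [cnd_of_eq Z z h]
      exact div_nonneg (hμ.nonneg _) (prb_nonneg hμ _ _)
    · rw [cnd_of_ne Z z h]
  · have h1 : ∀ ω, PFR.cnd μ Z z ω = (if Z ω = z then μ ω else 0) / prb μ Z z := by
      intro ω
      by_cases h : Z ω = z
      · rw [cnd_of_eq Z z h, if_pos h]
      · rw [cnd_of_ne Z z h, if_neg h, zero_div]
    rw [Finset.sum_congr rfl (fun ω _ => h1 ω), ← Finset.sum_div]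
    have h2 : (∑ ω, if Z ω = z then μ ω else 0) = prb μ Z z := by
      unfold prb
      refine Finset.sum_congr rfl (fun ω _ => ?_)
      split_ifs <;> rfl
    rw [h2, div_self hz]

/-- sums against a conditioned measure -/
theorem sum_cnd (hμ : PM μ) {ι : Type} [Fintype ι] (Z : Ω → ι) (F : ι → Ω → ℝ) :
    ∑ z, prb μ Z z * ∑ ω, cnd μ Z z ω * F z ω = ∑ ω, μ ω * F (Z ω) ω := by
  classical
  simp_rw [Finset.mul_sum]
  rw [Finset.sum_comm]
  refine Finset.sum_congr rfl (fun ω _ => ?_)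
  rw [Finset.sum_eq_single (Z ω)]
  · rw [← mul_assoc, prb_mul_cnd hμ]
  · intro z _ hz
    rw [cnd_of_ne Z z (fun h => hz h.symm)]
    simp
  · intro h
    exact absurd (Finset.mem_univ _) h

theorem prb_mul_prb_cnd (hμ : PM μ) {ι α : Type} (Z : Ω → ι) (z : ι) (f : Ω → α) (a : α) :
    prb μ Z z * prb (cnd μ Z z) f a = prb μ (fun ω => (f ω, Z ω)) (a, z) := by
  classical
  rw [prb_pair_eq]
  rw [show prb (cnd μ Z z) f a = ∑ ω, if f ω = a then cnd μ Z z ω else 0 from by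
    unfold prb
    refine Finset.sum_congr rfl (fun ω _ => ?_)
    split_ifs <;> rfl]
  rw [Finset.mul_sum]
  refine Finset.sum_congr rfl (fun ω _ => ?_)
  by_cases h1 : f ω = a
  · rw [if_pos h1, if_pos h1]
    by_cases h2 : Z ω = z
    · rw [if_pos h2, ← h2, prb_mul_cnd hμ]
    · rw [if_neg h2, cnd_of_ne Z z h2, mul_zero]
  · rw [if_neg h1, if_neg h1, mul_zero]

/-- the chain rule -/
theorem ent_cnd (hμ : PM μ) {ι : Type} [Fintype ι] {α : Type} (Z : Ω → ι) (f : Ω → α) :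
    ∑ z, prb μ Z z * ent (cnd μ Z z) f = ent μ (fun ω => (f ω, Z ω)) - ent μ Z := by
  have h1 := sum_cnd hμ Z (fun z ω => -log (prb (cnd μ Z z) f (f ω)))
  unfold ent
  rw [h1, ← Finset.sum_sub_distrib]
  refine Finset.sum_congr rfl (fun ω _ => ?_)
  rcases (hμ.nonneg ω).lt_or_eq with h0 | h0
  · have h2 := prb_mul_prb_cnd hμ Z (Z ω) f (f ω)
    have h3 := prb_pos hμ Z ω h0
    have h4 := prb_pos hμ (fun ω => (f ω, Z ω)) ω h0
    have h5 : 0 < prb (cnd μ Z (Z ω)) f (f ω) := by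
      rw [← h2] at h4
      exact (mul_pos_iff_of_pos_left h3).1 h4
    rw [← h2, log_mul h3.ne' h5.ne']
    ring
  · rw [← h0]
    simp

theorem ent_cnd_const (hμ : PM μ) {ι : Type} [Fintype ι] (Z : Ω → ι) (c : ℝ) :
    ∑ z, prb μ Z z * c = c := by
  rw [← Finset.sum_mul, (hμ.law Z).sum, one_mul]

/-- averaging of inequalities -/
theorem avg_le (hμ : PM μ) {ι : Type} [Fintype ι] (Z : Ω → ι) (F F' : ι → ℝ)
    (h : ∀ z, prb μ Z z ≠ 0 → F z ≤ F' z) :
    ∑ z, prb μ Z z * F z ≤ ∑ z, prb μ Z z * F' z := by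
  refine Finset.sum_le_sum (fun z _ => ?_)
  by_cases hz : prb μ Z z = 0
  · rw [hz]
    simp
  · exact mul_le_mul_of_nonneg_left (h z hz) (prb_nonneg hμ _ _)

end cnd

section product

variable {Ω Ω' : Type} [Fintype Ω] [Fintype Ω'] {μ : Ω → ℝ} {ν : Ω' → ℝ}

/-- products of conditioned measures -/
theorem prd_cnd {ι ι' : Type} (Z : Ω → ι) (W : Ω' → ι') (z : ι) (w : ι') :
    prd (cnd μ Z z) (cnd ν W w) = cnd (prd μ ν) (fun t => (Z t.1, W t.2)) (z, w) := by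
  funext t
  by_cases h1 : Z t.1 = z
  · by_cases h2 : W t.2 = w
    · rw [cnd_of_eq (fun t : Ω × Ω' => (Z t.1, W t.2)) (z, w) (ω := t)
        (show (Z t.1, W t.2) = (z, w) by rw [h1, h2])]
      unfold prd
      rw [cnd_of_eq Z z h1, cnd_of_eq W w h2]
      have h3 := prb_prd (μ := μ) (ν := ν) Z W z w
      unfold prd at h3
      rw [h3]
      ring
    · rw [cnd_of_ne (fun t : Ω × Ω' => (Z t.1, W t.2)) (z, w) (ω := t)
        (show (Z t.1, W t.2) ≠ (z, w) from fun h => h2 (Prod.ext_iff.1 h).2)]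
      unfold prd
      rw [cnd_of_ne W w h2, mul_zero]
  · rw [cnd_of_ne (fun t : Ω × Ω' => (Z t.1, W t.2)) (z, w) (ω := t)
      (show (Z t.1, W t.2) ≠ (z, w) from fun h => h1 (Prod.ext_iff.1 h).1)]
    unfold prd
    rw [cnd_of_ne Z z h1, zero_mul]

theorem prd_cnd_snd (hμ : PM μ) {ι' : Type} (W : Ω' → ι') (w : ι') :
    prd μ (cnd ν W w) = cnd (prd μ ν) (fun t => W t.2) w := by
  funext t
  by_cases h2 : W t.2 = w
  · rw [cnd_of_eq (fun t : Ω × Ω' => W t.2) w (ω := t) h2, prb_snd hμ]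
    unfold prd
    rw [cnd_of_eq W w h2]
    ring
  · rw [cnd_of_ne (fun t : Ω × Ω' => W t.2) w (ω := t) h2]
    unfold prd
    rw [cnd_of_ne W w h2, mul_zero]

/-- the chain rule for products, two conditions -/
theorem ent_prd_cnd (hμ : PM μ) (hν : PM ν) {ι ι' α : Type} [Fintype ι] [Fintype ι']
    (Z : Ω → ι) (W : Ω' → ι') (F : Ω × Ω' → α) :
    ∑ z, prb μ Z z * ∑ w, prb ν W w * ent (prd (cnd μ Z z) (cnd ν W w)) F =
      ent (prd μ ν) (fun t => (F t, Z t.1, W t.2)) - ent μ Z - ent ν W := by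
  have h1 := ent_cnd (hμ.prd hν) (fun t : Ω × Ω' => (Z t.1, W t.2)) F
  rw [ent_prd hμ hν] at h1
  rw [Fintype.sum_prod_type] at h1
  have h2 : ∑ z, prb μ Z z * ∑ w, prb ν W w * ent (prd (cnd μ Z z) (cnd ν W w)) F =
      ∑ z, ∑ w, prb (prd μ ν) (fun t => (Z t.1, W t.2)) (z, w) *
        ent (cnd (prd μ ν) (fun t => (Z t.1, W t.2)) (z, w)) F := by
    refine Finset.sum_congr rfl (fun z _ => ?_)
    rw [Finset.mul_sum]
    refine Finset.sum_congr rfl (fun w _ => ?_)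
    rw [prd_cnd, prb_prd]
    ring
  rw [h2, h1]
  ring

/-- the chain rule for products, one condition -/
theorem ent_prd_cnd_snd (hμ : PM μ) (hν : PM ν) {ι' α : Type} [Fintype ι']
    (W : Ω' → ι') (F : Ω × Ω' → α) :
    ∑ w, prb ν W w * ent (prd μ (cnd ν W w)) F =
      ent (prd μ ν) (fun t => (F t, W t.2)) - ent ν W := by
  have h1 := ent_cnd (hμ.prd hν) (fun t : Ω × Ω' => W t.2) F
  rw [ent_snd hμ] at h1
  rw [← h1]
  refine Finset.sum_congr rfl (fun w _ => ?_)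
  rw [prd_cnd_snd hμ, prb_snd hμ]

end product

section copies

variable {Ω : Type} [Fintype Ω] {μ : Ω → ℝ}

open scoped Classical in
/-- conditionally independent copies given `Z` -/
noncomputable def cip (μ : Ω → ℝ) {ι : Type} (Z : Ω → ι) : Ω × Ω → ℝ :=
  fun w => if Z w.1 = Z w.2 then μ w.1 * μ w.2 / prb μ Z (Z w.1) else 0

theorem cip_eq {ι : Type} (Z : Ω → ι) (w : Ω × Ω) :
    cip μ Z w = μ w.1 * cnd μ Z (Z w.1) w.2 := by
  unfold cip
  by_cases h : Z w.1 = Z w.2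
  · rw [if_pos h, cnd_of_eq Z _ h.symm]
    ring
  · rw [if_neg h, cnd_of_ne Z _ (fun h' => h h'.symm), mul_zero]

theorem cip_symm {ι : Type} (Z : Ω → ι) (w : Ω × Ω) : cip μ Z w = cip μ Z w.swap := by
  unfold cip
  by_cases h : Z w.1 = Z w.2
  · rw [if_pos h, if_pos (show Z w.swap.1 = Z w.swap.2 from h.symm), Prod.fst_swap,
      Prod.snd_swap, h, mul_comm (μ w.1)]
  · rw [if_neg h, if_neg (show ¬ Z w.swap.1 = Z w.swap.2 from fun h' => h h'.symm)]

theorem sum_cip_fst (hμ : PM μ) {ι : Type} (Z : Ω → ι) (ω : Ω) :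
    ∑ ω', cip μ Z (ω, ω') = μ ω := by
  simp_rw [cip_eq]
  rw [← Finset.mul_sum]
  rcases (hμ.nonneg ω).lt_or_eq with h0 | h0
  · rw [(hμ.cnd Z (Z ω) (prb_pos hμ Z ω h0).ne').sum, mul_one]
  · rw [← h0, zero_mul]

theorem PM.cip (hμ : PM μ) {ι : Type} (Z : Ω → ι) : PM (cip μ Z) := by
  constructor
  · intro w
    unfold PFR.cip
    split_ifs
    · exact div_nonneg (mul_nonneg (hμ.nonneg _) (hμ.nonneg _)) (prb_nonneg hμ _ _)
    · exact le_refl _
  · rw [Fintype.sum_prod_type]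
    simp_rw [sum_cip_fst hμ]
    exact hμ.sum

theorem prb_cip_fst (hμ : PM μ) {ι : Type} (Z : Ω → ι) {α : Type} (f : Ω → α) (a : α) :
    prb (cip μ Z) (fun w => f w.1) a = prb μ f a := by
  classical
  unfold prb
  rw [Fintype.sum_prod_type]
  refine Finset.sum_congr rfl (fun ω _ => ?_)
  dsimp only
  by_cases h : f ω = a
  · simp_rw [if_pos h]
    exact sum_cip_fst hμ Z ω
  · simp_rw [if_neg h]
    exact Finset.sum_const_zero

theorem ent_cip_fst (hμ : PM μ) {ι : Type} (Z : Ω → ι) {α : Type} (f : Ω → α) :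
    ent (cip μ Z) (fun w => f w.1) = ent μ f := by
  unfold ent
  rw [Fintype.sum_prod_type]
  refine Finset.sum_congr rfl (fun ω _ => ?_)
  dsimp only
  simp_rw [prb_cip_fst hμ]
  rw [← Finset.sum_mul, sum_cip_fst hμ]

theorem ent_cip_snd (hμ : PM μ) {ι : Type} (Z : Ω → ι) {α : Type} (f : Ω → α) :
    ent (cip μ Z) (fun w => f w.2) = ent μ f := by
  rw [← ent_cip_fst hμ Z f]
  exact ent_equiv (μ := cip μ Z) (ν := cip μ Z) (Equiv.prodComm Ω Ω)
    (fun w => cip_symm Z w) (fun w => f w.1)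

theorem cnd_cip (hμ : PM μ) {ι : Type} (Z : Ω → ι) (z : ι) :
    cnd (cip μ Z) (fun w => Z w.1) z = prd (cnd μ Z z) (cnd μ Z z) := by
  funext w
  by_cases h1 : Z w.1 = z
  · rw [cnd_of_eq (fun w : Ω × Ω => Z w.1) z (ω := w) h1, prb_cip_fst hμ]
    unfold prd
    rw [cip_eq, cnd_of_eq Z z h1, h1]
    ring
  · rw [cnd_of_ne (fun w : Ω × Ω => Z w.1) z (ω := w) h1]
    unfold prd
    rw [cnd_of_ne Z z h1, zero_mul]

/-- entropies of conditionally independent copies -/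
theorem ent_cip (hμ : PM μ) {ι α : Type} [Fintype ι] (Z : Ω → ι) (F : Ω × Ω → α) :
    ∑ z, prb μ Z z * ent (prd (cnd μ Z z) (cnd μ Z z)) F =
      ent (cip μ Z) (fun w => (F w, Z w.1)) - ent μ Z := by
  have h1 := ent_cnd (hμ.cip Z) (fun w => Z w.1) F
  rw [ent_cip_fst hμ] at h1
  rw [← h1]
  refine Finset.sum_congr rfl (fun z _ => ?_)
  rw [prb_cip_fst hμ]
  by_cases hz : prb μ Z z = 0
  · rw [hz, zero_mul, zero_mul]
  · rw [cnd_cip hμ Z z]

theorem ent_cip_pair (hμ : PM μ) {ι α β : Type} [Fintype ι] (Z : Ω → ι) (f : Ω → α)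
    (g : Ω → β) :
    ent (cip μ Z) (fun w => ((f w.1, g w.2), Z w.1)) =
      ent μ (fun ω => (f ω, Z ω)) + ent μ (fun ω => (g ω, Z ω)) - ent μ Z := by
  have h1 := ent_cip hμ Z (fun w : Ω × Ω => (f w.1, g w.2))
  have h2 : ∑ z, prb μ Z z * ent (prd (cnd μ Z z) (cnd μ Z z)) (fun w => (f w.1, g w.2)) =
      ∑ z, (prb μ Z z * ent (cnd μ Z z) f + prb μ Z z * ent (cnd μ Z z) g) := by
    refine Finset.sum_congr rfl (fun z _ => ?_)
    by_cases hz : prb μ Z z = 0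
    · rw [hz]
      ring
    · rw [ent_prd (hμ.cnd Z z hz) (hμ.cnd Z z hz)]
      ring
  rw [h2, Finset.sum_add_distrib, ent_cnd hμ, ent_cnd hμ] at h1
  linarith

end copies

end Pool.Agent.Lib.PFR
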