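import Pool.Agent.Lib.PFR.Ent

/-!
# PFR.Dist: Ruzsa distance of two laws on a finite group (sum version) and the functional `tau`
-/

set_option autoImplicit false

namespace Pool.Agent.Lib.PFR

open Real

/-- Ruzsa distance of two laws (with sums; we only use groups of exponent two) -/
noncomputable def dist {G : Type} [AddCommGroup G] [Fintype G] (p q : G → ℝ) : ℝ :=
  ent (prd p q) (fun z => z.1 + z.2) - ent p (fun a => a) / 2 - ent q (fun a => a) / 2

/-- the functional which is minimised -/
noncomputable def tau {G : Type} [AddCommGroup G] [Fintype G] (p0 q1 q2 : G → ℝ) : ℝ :=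
  dist q1 q2 + 1 / 9 * (dist p0 q1 + dist p0 q2)

end Pool.Agent.Lib.PFR
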