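import Pool.Agent.Lib.PFR.Est

/-!
# PFR.End: the endgame, the distance of a minimiser is zero
-/

set_option autoImplicit false
set_option linter.unusedSectionVars false
set_option linter.unusedVariables false

namespace Pool.Agent.Lib.PFR

open Real

variable {G : Type} [AddCommGroup G] [Fintype G]

/-- exchange of the second and the fourth variable -/
def eA : (G × G) × (G × G) ≃ (G × G) × (G × G) where
  toFun w := ((w.1.1, w.2.2), (w.2.1, w.1.2))
  invFun w := ((w.1.1, w.2.2), (w.2.1, w.1.2))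
  left_inv _ := rfl
  right_inv _ := rfl

/-- exchange of the first and the fourth variable -/
def eB : (G × G) × (G × G) ≃ (G × G) × (G × G) where
  toFun w := ((w.2.2, w.1.2), (w.2.1, w.1.1))
  invFun w := ((w.2.2, w.1.2), (w.2.1, w.1.1))
  left_inv _ := rfl
  right_inv _ := rfl

theorem sm_eA (w : (G × G) × (G × G)) : sm (eA w) = sm w := by
  unfold sm eA
  dsimp only [Equiv.coe_fn_mk]
  abel

theorem sm_eB (w : (G × G) × (G × G)) : sm (eB w) = sm w := by
  unfold sm eB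
  dsimp only [Equiv.coe_fn_mk]
  abel

/-- `X₁ + X₂` -/
def vU (w : (G × G) × (G × G)) : G := w.1.1 + w.2.1

/-- `X̃₁ + X₂` -/
def vV (w : (G × G) × (G × G)) : G := w.2.1 + w.2.2

/-- `X₁ + X̃₁` -/
def vW (w : (G × G) × (G × G)) : G := w.1.1 + w.2.2

/-- `X₂ + X̃₂` -/
def vW' (w : (G × G) × (G × G)) : G := w.2.1 + w.1.2

theorem sm_eq_W (w : (G × G) × (G × G)) : sm w = vW w + vW' w := by
  unfold sm vW vW'
  abel

section

variable {p q : G → ℝ}

theorem ent_eA {α : Type} (F : (G × G) × (G × G) → α) :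
    ent (qd p q q p) (fun w => F (eA w)) = ent (qd p p q q) F := by
  refine ent_equiv (μ := qd p q q p) (ν := qd p p q q) eA (fun w => ?_) F
  show p w.1.1 * q w.1.2 * (q w.2.1 * p w.2.2) = p w.1.1 * p w.2.2 * (q w.2.1 * q w.1.2)
  ring

theorem ent_eB {α : Type} (F : (G × G) × (G × G) → α) :
    ent (qd p q q p) (fun w => F (eB w)) = ent (qd p q q p) F := by
  refine ent_equiv (μ := qd p q q p) (ν := qd p q q p) eB (fun w => ?_) F
  show p w.1.1 * q w.1.2 * (q w.2.1 * p w.2.2) = p w.2.2 * q w.1.2 * (q w.2.1 * p w.1.1)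
  ring

theorem ent_sm_eq : ent (qd p q q p) sm = ent (qd p p q q) sm := by
  rw [← ent_eA]
  simp_rw [sm_eA]

theorem ent_W_sm (hp : PM p) (hq : PM q) :
    ent (qd p q q p) (fun w => (vW w, sm w)) = hs p p + hs q q := by
  rw [← ent_qd_col hp hp hq hq, ← ent_eA]
  refine ent_congr (fun w w' => ?_)
  simp_rw [sm_eA]
  show (vW w, sm w) = (vW w', sm w') ↔ (vW' w, sm w) = (vW' w', sm w')
  simp only [Prod.mk.injEq]
  rw [sm_eq_W, sm_eq_W]
  constructor
  · rintro ⟨h, h'⟩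
    rw [h] at h'
    rw [h, add_left_cancel h']
    exact ⟨rfl, rfl⟩
  · rintro ⟨h, h'⟩
    rw [h] at h'
    rw [h, add_right_cancel h']
    exact ⟨rfl, rfl⟩

theorem ent_W'_sm (hp : PM p) (hq : PM q) :
    ent (qd p q q p) (fun w => (vW' w, sm w)) = hs p p + hs q q := by
  rw [← ent_W_sm hp hq]
  refine ent_congr (fun w w' => ?_)
  simp only [Prod.mk.injEq]
  rw [sm_eq_W, sm_eq_W]
  constructor
  · rintro ⟨h, h'⟩
    rw [h] at h'
    rw [h, add_right_cancel h']
    exact ⟨rfl, rfl⟩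
  · rintro ⟨h, h'⟩
    rw [h] at h'
    rw [h, add_left_cancel h']
    exact ⟨rfl, rfl⟩

theorem ent_U_sm (hp : PM p) (hq : PM q) :
    ent (qd p q q p) (fun w => (vU w, sm w)) = 2 * hs p q := by
  have h := ent_qd_row hp hq hq hp
  rw [hs_symm q p] at h
  unfold vU
  linarith

theorem ent_V_sm (hp : PM p) (hq : PM q) :
    ent (qd p q q p) (fun w => (vV w, sm w)) = 2 * hs p q := by
  have h := ent_qd_col hp hq hq hp
  rw [hs_symm q p] at h
  unfold vV
  linarith

/-- laws of the sums -/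
theorem prb_U (hp : PM p) (hq : PM q) :
    prb (qd p q q p) vU = prb (prd p q) (fun w => w.1 + w.2) := by
  funext g
  have h1 := prb_equiv (μ := qd p q q p) (ν := qd p q q p) (Equiv.prodProdProdComm G G G G)
    (fun w => by
      show p w.1.1 * q w.1.2 * (q w.2.1 * p w.2.2) = p w.1.1 * q w.2.1 * (q w.1.2 * p w.2.2)
      ring)
  have h2 := prb_comp (μ := qd p q q p) (Equiv.prodProdProdComm G G G G)
    (fun w : (G × G) × (G × G) => w.1.1 + w.1.2) g
  rw [h1] at h2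
  exact h2.trans (prb_fst (hq.prd hp) (fun w : G × G => w.1 + w.2) g)

theorem prb_V (hp : PM p) (hq : PM q) :
    prb (qd p q q p) vV = prb (prd q p) (fun w => w.1 + w.2) := by
  funext g
  exact prb_snd (hp.prd hq) (fun w : G × G => w.1 + w.2) g

theorem prb_W (hp : PM p) (hq : PM q) :
    prb (qd p q q p) vW = prb (prd p p) (fun w => w.1 + w.2) := by
  funext g
  have h1 := prb_equiv (μ := qd p q q p) (ν := qd p p q q) eA (fun w => by
    show p w.1.1 * q w.1.2 * (q w.2.1 * p w.2.2) = p w.1.1 * p w.2.2 * (q w.2.1 * q w.1.2)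
    ring)
  have h2 := prb_comp (μ := qd p q q p) eA (fun w : (G × G) × (G × G) => w.1.1 + w.1.2) g
  rw [h1] at h2
  exact h2.trans (prb_fst (hq.prd hq) (fun w : G × G => w.1 + w.2) g)

theorem prb_W' (hp : PM p) (hq : PM q) :
    prb (qd p q q p) vW' = prb (prd q q) (fun w => w.1 + w.2) := by
  funext g
  have h1 := prb_equiv (μ := qd p q q p) (ν := qd p p q q) eA (fun w => by
    show p w.1.1 * q w.1.2 * (q w.2.1 * p w.2.2) = p w.1.1 * p w.2.2 * (q w.2.1 * q w.1.2)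
    ring)
  have h2 := prb_comp (μ := qd p q q p) eA (fun w : (G × G) × (G × G) => w.2.1 + w.2.2) g
  rw [h1] at h2
  exact h2.trans (prb_snd (hp.prd hp) (fun w : G × G => w.1 + w.2) g)

theorem ent_of_prb {Ω Ω' : Type} [Fintype Ω] [Fintype Ω'] {μ : Ω → ℝ} {ν : Ω' → ℝ}
    {f : Ω → G} {g : Ω' → G} (h : prb μ f = prb ν g) : ent μ f = ent ν g := by
  rw [ent_eq_sum, ent_eq_sum, h]

theorem ent_U (hp : PM p) (hq : PM q) : ent (qd p q q p) vU = hs p q :=
  ent_of_prb (prb_U hp hq)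

theorem ent_V (hp : PM p) (hq : PM q) : ent (qd p q q p) vV = hs p q := by
  rw [hs_symm]
  exact ent_of_prb (prb_V hp hq)

theorem ent_W (hp : PM p) (hq : PM q) : ent (qd p q q p) vW = hs p p :=
  ent_of_prb (prb_W hp hq)

theorem ent_W' (hp : PM p) (hq : PM q) : ent (qd p q q p) vW' = hs q q :=
  ent_of_prb (prb_W' hp hq)

/-- the three mutual informations -/
theorem cmi_UV : cmi (qd p q q p) vU vV sm = I₁ p q := rfl

theorem cmi_WU : cmi (qd p q q p) vW vU sm = I₂ p q := by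
  unfold cmi I₂
  unfold cmi
  rw [ent_sm_eq]
  have h1 : ent (qd p q q p) (fun w => (vW w, sm w)) =
      ent (qd p p q q) (fun w => (w.2.1 + w.2.2, sm w)) := by
    rw [← ent_eA]
    refine ent_congr (fun w w' => ?_)
    simp_rw [sm_eA]
    show (vW w, sm w) = (vW w', sm w') ↔ (vW' w, sm w) = (vW' w', sm w')
    simp only [Prod.mk.injEq]
    rw [sm_eq_W, sm_eq_W]
    constructor
    · rintro ⟨h, h'⟩
      rw [h] at h'
      rw [h, add_left_cancel h']
      exact ⟨rfl, rfl⟩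
    · rintro ⟨h, h'⟩
      rw [h] at h'
      rw [h, add_right_cancel h']
      exact ⟨rfl, rfl⟩
  have h2 : ent (qd p q q p) (fun w => (vU w, sm w)) =
      ent (qd p p q q) (fun w => (w.1.1 + w.2.1, sm w)) := by
    rw [← ent_eA]
    simp_rw [sm_eA]
    rfl
  have h3 : ent (qd p q q p) (fun w => (vW w, vU w, sm w)) =
      ent (qd p p q q) (fun w => (w.1.1 + w.2.1, w.2.1 + w.2.2, sm w)) := by
    rw [← ent_eA]
    refine ent_congr (fun w w' => ?_)
    simp_rw [sm_eA]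
    show (vW w, vU w, sm w) = (vW w', vU w', sm w') ↔
      (vU w, vW' w, sm w) = (vU w', vW' w', sm w')
    simp only [Prod.mk.injEq]
    rw [sm_eq_W, sm_eq_W]
    constructor
    · rintro ⟨h, h'', h'⟩
      rw [h] at h'
      rw [h, add_left_cancel h', h'']
      exact ⟨rfl, rfl, rfl⟩
    · rintro ⟨h, h'', h'⟩
      rw [h''] at h'
      rw [h, add_right_cancel h', h'']
      exact ⟨rfl, rfl, rfl⟩
  rw [h1, h2, h3]
  ring

theorem cmi_VW : cmi (qd p q q p) vV vW sm = I₂ p q := by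
  rw [← cmi_WU]
  unfold cmi
  have h1 : ent (qd p q q p) (fun w => (vV w, sm w)) =
      ent (qd p q q p) (fun w => (vU w, sm w)) := by
    rw [← ent_eB]
    simp_rw [sm_eB]
    refine ent_congr (fun w w' => ?_)
    show (w.2.1 + w.1.1, sm w) = (w'.2.1 + w'.1.1, sm w') ↔
      (w.1.1 + w.2.1, sm w) = (w'.1.1 + w'.2.1, sm w')
    rw [add_comm w.2.1, add_comm w'.2.1]
  have h3 : ent (qd p q q p) (fun w => (vV w, vW w, sm w)) =
      ent (qd p q q p) (fun w => (vW w, vU w, sm w)) := by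
    rw [← ent_eB]
    simp_rw [sm_eB]
    refine ent_congr (fun w w' => ?_)
    show (w.2.1 + w.1.1, w.2.2 + w.1.1, sm w) = (w'.2.1 + w'.1.1, w'.2.2 + w'.1.1, sm w') ↔
      (w.1.1 + w.2.2, w.1.1 + w.2.1, sm w) = (w'.1.1 + w'.2.2, w'.1.1 + w'.2.1, sm w')
    rw [add_comm w.2.1, add_comm w'.2.1, add_comm w.2.2, add_comm w'.2.2]
    simp only [Prod.mk.injEq]
    tauto
  rw [h1, h3]
  ring

variable {η : ℝ} {r₁ r₂ : G → ℝ}

/-- the conditional endgame inequality -/
theorem IsMn.endgame_avg (h2 : ∀ g : G, g + g = 0) (hη : 0 ≤ η) (h : IsMn η r₁ r₂ p q) :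
    tau η r₁ r₂ p q ≤ (I₁ p q + I₂ p q + I₂ p q) +
      η / 3 * ((I₁ p q + I₂ p q + I₂ p q) +
        ((crd r₁ (qd p q q p) vU sm + crd r₁ (qd p q q p) vV sm + crd r₁ (qd p q q p) vW sm) +
         (crd r₂ (qd p q q p) vU sm + crd r₂ (qd p q q p) vV sm +
          crd r₂ (qd p q q p) vW sm))) := by
  have hm : PM (qd p q q p) := h.pmp.qd h.pmq h.pmq h.pmp
  rw [← cmi_UV, ← cmi_WU, ← mi_avg hm, ← mi_avg hm]
  have e0 : cmi (qd p q q p) vW vU sm = cmi (qd p q q p) vV vW sm := by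
    rw [cmi_WU, cmi_VW]
  rw [← mi_avg hm, ← mi_avg hm] at e0
  rw [← rd_cnd hm h.pm₁, ← rd_cnd hm h.pm₁, ← rd_cnd hm h.pm₁, ← rd_cnd hm h.pm₂,
    ← rd_cnd hm h.pm₂, ← rd_cnd hm h.pm₂, ← ent_cnd_const hm sm (tau η r₁ r₂ p q)]
  have key : ∀ z, prb (qd p q q p) sm z ≠ 0 → tau η r₁ r₂ p q ≤ _ := fun z hz =>
    h.endgame h2 hη (hm.cnd sm z hz) vU vV vW (fun w => by
      unfold vU vV vW
      have e : w.1.1 + w.2.1 + (w.2.1 + w.2.2) + (w.1.1 + w.2.2) =
        (w.1.1 + w.1.1) + (w.2.1 + w.2.1) + (w.2.2 + w.2.2) := by abel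
      rw [e, h2 w.1.1, h2 w.2.1, h2 w.2.2, add_zero, add_zero])
  refine le_trans (avg_le hm sm _ _ key) (le_of_eq ?_)
  have split : ∀ (a b c x1 x2 x3 x4 x5 x6 : G → ℝ),
      ∑ z, prb (qd p q q p) sm z * ((a z + b z + c z) + η / 3 * ((a z + b z + c z) +
        ((x1 z + x2 z + x3 z) + (x4 z + x5 z + x6 z)))) =
      (∑ z, prb (qd p q q p) sm z * a z + ∑ z, prb (qd p q q p) sm z * b z +
        ∑ z, prb (qd p q q p) sm z * c z) +
      η / 3 * ((∑ z, prb (qd p q q p) sm z * a z + ∑ z, prb (qd p q q p) sm z * b z +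
        ∑ z, prb (qd p q q p) sm z * c z) +
        ((∑ z, prb (qd p q q p) sm z * x1 z + ∑ z, prb (qd p q q p) sm z * x2 z +
        ∑ z, prb (qd p q q p) sm z * x3 z) +
        (∑ z, prb (qd p q q p) sm z * x4 z + ∑ z, prb (qd p q q p) sm z * x5 z +
        ∑ z, prb (qd p q q p) sm z * x6 z))) := by
    intro a b c x1 x2 x3 x4 x5 x6
    simp only [← Finset.sum_add_distrib, Finset.mul_sum]
    refine Finset.sum_congr rfl (fun z _ => ?_)
    ring
  rw [split, ← e0]

/-- bounds for the conditional distances -/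
theorem crd_bounds (h2 : ∀ g : G, g + g = 0) (hr₁ : PM r₁) (hr₂ : PM r₂) (hp : PM p)
    (hq : PM q) :
    (crd r₁ (qd p q q p) vU sm + crd r₁ (qd p q q p) vV sm + crd r₁ (qd p q q p) vW sm) +
         (crd r₂ (qd p q q p) vU sm + crd r₂ (qd p q q p) vV sm +
          crd r₂ (qd p q q p) vW sm) ≤
      3 * (dl r₁ p + dl r₂ q) + 3 * (ent (qd p q q p) sm - (hh p + hh q) / 2) := by
  have hm : PM (qd p q q p) := hp.qd hq hq hp
  have u1 := crd_le hm hr₁ vU sm
  have u2 := crd_le hm hr₂ vU sm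
  have v1 := crd_le hm hr₁ vV sm
  have v2 := crd_le hm hr₂ vV sm
  have w1 := crd_le hm hr₁ vW sm
  have w2 := crd_le hm hr₂ vW' sm
  rw [ent_U hp hq, ent_U_sm hp hq] at u1 u2
  rw [ent_V hp hq, ent_V_sm hp hq] at v1 v2
  rw [ent_W hp hq, ent_W_sm hp hq] at w1
  rw [ent_W' hp hq, ent_W'_sm hp hq] at w2
  rw [rd_congr rfl (prb_U hp hq)] at u1 u2
  rw [rd_congr rfl (prb_V hp hq)] at v1 v2
  rw [rd_congr rfl (prb_W hp hq)] at w1
  rw [rd_congr rfl (prb_W' hp hq)] at w2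
  have a1 := rd_sum_le hp hq hr₁
  have a2 := rd_sum_le' hp hq hr₂
  have a3 := rd_sum_le' hq hp hr₁
  have a4 := rd_sum_le hq hp hr₂
  have a5 := rd_sum_le hp hp hr₁
  have a6 := rd_sum_le hq hq hr₂
  rw [hs_symm q p] at a3 a4
  have e : crd r₂ (qd p q q p) vW sm = crd r₂ (qd p q q p) vW' sm := by
    unfold crd
    rw [ent_W_sm hp hq, ent_W'_sm hp hq]
    have e1 : ent (prd r₂ (qd p q q p)) (fun w => (w.1 + vW w.2, sm w.2)) =
        ent (prd r₂ (qd p q q p)) (fun w => (w.1 + vW' w.2, sm w.2)) := by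
      refine ent_congr (fun w w' => ?_)
      have c : ∀ w : (G × G) × (G × G), vW' w = vW w + sm w := fun w => by
        rw [sm_eq_W, add_self_cancel_left h2]
      simp only [Prod.mk.injEq]
      rw [c, c, ← add_assoc, ← add_assoc]
      constructor
      · rintro ⟨b, b'⟩
        rw [b, b']
        exact ⟨rfl, rfl⟩
      · rintro ⟨b, b'⟩
        rw [b'] at b
        exact ⟨add_right_cancel b, b'⟩
    rw [e1]
  rw [e]
  linarith

/-- the distance of a minimiser is zero -/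
theorem IsMn.dl_eq_zero (h2 : ∀ g : G, g + g = 0) (h : IsMn (1 / 9) r₁ r₂ p q) :
    dl p q = 0 := by
  have hη : (0 : ℝ) ≤ 1 / 9 := by norm_num
  have hm : PM (qd p q q p) := h.pmp.qd h.pmq h.pmq h.pmp
  have k0 : 0 ≤ dl p q := rd_nonneg h.pmp h.pmq _ _
  have i0 : 0 ≤ I₁ p q := cmi_nonneg hm _ _ _
  have f := h.first hη
  have s := h.second hη
  have e := h.endgame_avg h2 hη
  have c := crd_bounds h2 h.pm₁ h.pm₂ h.pmp h.pmq
  have hs : ent (qd p q q p) sm = ent (qd p p q q) sm := ent_sm_eq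
  have hk : dl p q ≤ 0 := by
    obtain ⟨f1, f2⟩ := f
    obtain ⟨s1, s2⟩ := s
    rw [← hs] at s2
    unfold tau at e
    linarith
  linarith

end

end Pool.Agent.Lib.PFR
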