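import Mathlib

/-!
# PFR.Ent: entropy on finite probability spaces
-/

set_option autoImplicit false

namespace Pool.Agent.Lib.PFR

open Real

/-- probability measures on finite sets -/
structure PM {Ω : Type} [Fintype Ω] (μ : Ω → ℝ) : Prop where
  nonneg : ∀ ω, 0 ≤ μ ω
  sum : ∑ ω, μ ω = 1

open scoped Classical in
/-- the probability of `f = a` -/
noncomputable def prb {Ω : Type} [Fintype Ω] (μ : Ω → ℝ) {α : Type} (f : Ω → α) (a : α) : ℝ :=
  ∑ ω, if f ω = a then μ ω else 0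

/-- the entropy of `f` -/
noncomputable def ent {Ω : Type} [Fintype Ω] (μ : Ω → ℝ) {α : Type} (f : Ω → α) : ℝ :=
  ∑ ω, μ ω * (-log (prb μ f (f ω)))

/-- conditional mutual information `I[f : g | h]` -/
noncomputable def cmi {Ω : Type} [Fintype Ω] (μ : Ω → ℝ) {α β γ : Type} (f : Ω → α) (g : Ω → β)
    (h : Ω → γ) : ℝ :=
  ent μ (fun ω => (f ω, h ω)) + ent μ (fun ω => (g ω, h ω)) - ent μ (fun ω => (f ω, g ω, h ω)) -
    ent μ h

/-- the product measure -/
def prd {Ω Ω' : Type} (μ : Ω → ℝ) (ν : Ω' → ℝ) : Ω × Ω' → ℝ := fun w => μ w.1 * ν w.2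

section basic

variable {Ω : Type} [Fintype Ω] {μ : Ω → ℝ}

theorem prb_nonneg (hμ : PM μ) {α : Type} (f : Ω → α) (a : α) : 0 ≤ prb μ f a := by
  classical
  unfold prb
  refine Finset.sum_nonneg (fun ω _ => ?_)
  split_ifs
  · exact hμ.nonneg ω
  · exact le_refl _

theorem prb_pos (hμ : PM μ) {α : Type} (f : Ω → α) (ω : Ω) (h : 0 < μ ω) :
    0 < prb μ f (f ω) := by
  classical
  have h1 : (if f ω = f ω then μ ω else 0) ≤ prb μ f (f ω) := by
    unfold prb
    refine Finset.single_le_sum (f := fun ω' => if f ω' = f ω then μ ω' else 0)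
      (fun ω' _ => ?_) (Finset.mem_univ ω)
    split_ifs
    · exact hμ.nonneg ω'
    · exact le_refl _
  rw [if_pos rfl] at h1
  exact lt_of_lt_of_le h h1

theorem prb_le_one (hμ : PM μ) {α : Type} (f : Ω → α) (a : α) : prb μ f a ≤ 1 := by
  classical
  rw [← hμ.sum]
  unfold prb
  refine Finset.sum_le_sum (fun ω _ => ?_)
  split_ifs
  · exact le_refl _
  · exact hμ.nonneg ω

open scoped Classical in
theorem sum_prb_mul_image {α : Type} (f : Ω → α) (S : Finset α)
    (hS : Finset.univ.image f ⊆ S) (G : α → ℝ) :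
    ∑ a ∈ S, prb μ f a * G a = ∑ ω, μ ω * G (f ω) := by
  unfold prb
  simp_rw [Finset.sum_mul]
  rw [Finset.sum_comm]
  refine Finset.sum_congr rfl (fun ω _ => ?_)
  have h1 : ∀ a ∈ S, (if f ω = a then μ ω else 0) * G a = if f ω = a then μ ω * G a else 0 := by
    intro a _
    split_ifs <;> simp
  rw [Finset.sum_congr rfl h1, Finset.sum_ite_eq,
    if_pos (hS (Finset.mem_image_of_mem f (Finset.mem_univ ω)))]

theorem sum_prb_mul {α : Type} [Fintype α] (f : Ω → α) (G : α → ℝ) :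
    ∑ a, prb μ f a * G a = ∑ ω, μ ω * G (f ω) := by
  classical
  exact sum_prb_mul_image f Finset.univ (Finset.subset_univ _) G

/-- the law is a probability measure -/
theorem PM.law (hμ : PM μ) {α : Type} [Fintype α] (f : Ω → α) : PM (prb μ f) := by
  refine ⟨prb_nonneg hμ f, ?_⟩
  have h := sum_prb_mul (μ := μ) f (fun _ => 1)
  simpa [hμ.sum] using h

theorem ent_eq_sum {α : Type} [Fintype α] (f : Ω → α) :
    ent μ f = ∑ a, negMulLog (prb μ f a) := by
  have h := sum_prb_mul (μ := μ) f (fun a => -log (prb μ f a))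
  unfold ent
  rw [← h]
  refine Finset.sum_congr rfl (fun a _ => ?_)
  rw [negMulLog]
  ring

/-- Gibbs' inequality -/
theorem ent_le_cross (hμ : PM μ) {α : Type} (f : Ω → α) (Q : α → ℝ) (S : Finset α)
    (hS : ∀ ω, f ω ∈ S) (hQ : ∀ a ∈ S, 0 ≤ Q a)
    (hQp : ∀ ω, 0 < μ ω → 0 < Q (f ω)) (hQs : ∑ a ∈ S, Q a ≤ 1) :
    ent μ f ≤ ∑ ω, μ ω * (-log (Q (f ω))) := by
  classical
  have h1 : ∑ ω, μ ω * (Q (f ω) / prb μ f (f ω)) ≤ 1 := by
    rw [← sum_prb_mul_image f S (fun a ha => by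
      obtain ⟨ω, _, rfl⟩ := Finset.mem_image.1 ha
      exact hS ω) (fun a => Q a / prb μ f a)]
    refine le_trans (Finset.sum_le_sum (fun a ha => ?_)) hQs
    by_cases h : prb μ f a = 0
    · rw [h, zero_mul]
      exact hQ a ha
    · rw [mul_div_cancel₀ _ h]
  have h2 : ∀ ω, μ ω * (-log (prb μ f (f ω))) - μ ω * (-log (Q (f ω)))
      ≤ μ ω * (Q (f ω) / prb μ f (f ω)) - μ ω := by
    intro ω
    rcases (hμ.nonneg ω).lt_or_eq with h | h
    · have hp := prb_pos hμ f ω h
      have hq := hQp ω h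
      have h3 := log_le_sub_one_of_pos (div_pos hq hp)
      rw [log_div hq.ne' hp.ne'] at h3
      nlinarith
    · rw [← h]
      simp
  have h3 := Finset.sum_le_sum (fun ω (_ : ω ∈ Finset.univ) => h2 ω)
  rw [Finset.sum_sub_distrib, Finset.sum_sub_distrib, hμ.sum] at h3
  unfold ent
  linarith

theorem prb_congr {α β : Type} {f : Ω → α} {g : Ω → β} {a : α} {b : β}
    (h : ∀ ω, f ω = a ↔ g ω = b) : prb μ f a = prb μ g b := by
  classical
  unfold prb
  refine Finset.sum_congr rfl (fun ω _ => ?_)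
  by_cases h2 : f ω = a
  · rw [if_pos h2, if_pos ((h ω).1 h2)]
  · rw [if_neg h2, if_neg (fun h3 => h2 ((h ω).2 h3))]

theorem ent_congr {α β : Type} {f : Ω → α} {g : Ω → β}
    (h : ∀ ω ω', f ω = f ω' ↔ g ω = g ω') : ent μ f = ent μ g := by
  unfold ent
  refine Finset.sum_congr rfl (fun ω _ => ?_)
  rw [prb_congr (fun ω' => h ω' ω)]

theorem ent_mono (hμ : PM μ) {α β : Type} {f : Ω → α} {g : Ω → β}
    (h : ∀ ω ω', g ω = g ω' → f ω = f ω') : ent μ f ≤ ent μ g := by
  classical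
  unfold ent
  refine Finset.sum_le_sum (fun ω _ => ?_)
  rcases (hμ.nonneg ω).lt_or_eq with h0 | h0
  · refine mul_le_mul_of_nonneg_left ?_ h0.le
    refine neg_le_neg (log_le_log (prb_pos hμ g ω h0) ?_)
    unfold prb
    refine Finset.sum_le_sum (fun ω' _ => ?_)
    by_cases h2 : g ω' = g ω
    · rw [if_pos h2, if_pos (h ω' ω h2)]
    · rw [if_neg h2]
      split_ifs
      · exact hμ.nonneg ω'
      · exact le_refl _
  · rw [← h0]
    simp

theorem ent_nonneg (hμ : PM μ) {α : Type} (f : Ω → α) : 0 ≤ ent μ f := by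
  unfold ent
  refine Finset.sum_nonneg (fun ω _ => ?_)
  rcases (hμ.nonneg ω).lt_or_eq with h0 | h0
  · refine mul_nonneg h0.le (neg_nonneg.2 ?_)
    exact log_nonpos (prb_nonneg hμ f _) (prb_le_one hμ f _)
  · rw [← h0]
    simp

/-- laws of functions of a random variable -/
theorem prb_comp {Ω' : Type} [Fintype Ω'] (φ : Ω → Ω') {α : Type} (f : Ω' → α) (a : α) :
    prb μ (fun ω => f (φ ω)) a = prb (prb μ φ) f a := by
  classical
  have h : prb (prb μ φ) f a = ∑ w, prb μ φ w * (if f w = a then 1 else 0) := by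
    unfold prb
    refine Finset.sum_congr rfl (fun w _ => ?_)
    split_ifs
    · rw [mul_one]
    · rw [mul_zero]
  rw [h, sum_prb_mul]
  unfold prb
  refine Finset.sum_congr rfl (fun ω _ => ?_)
  split_ifs
  · rw [mul_one]
  · rw [mul_zero]

theorem ent_comp {Ω' : Type} [Fintype Ω'] (φ : Ω → Ω') {α : Type} (f : Ω' → α) :
    ent μ (fun ω => f (φ ω)) = ent (prb μ φ) f := by
  unfold ent
  rw [sum_prb_mul (μ := μ) φ (fun w => -log (prb (prb μ φ) f (f w)))]
  refine Finset.sum_congr rfl (fun ω _ => ?_)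
  rw [prb_comp]

/-- bijections which preserve the measure -/
theorem prb_equiv {Ω' : Type} [Fintype Ω'] {ν : Ω' → ℝ} (e : Ω ≃ Ω') (h : ∀ ω, μ ω = ν (e ω)) :
    prb μ e = ν := by
  classical
  funext w
  unfold prb
  have h1 : ∀ ω, (if e ω = w then μ ω else 0) = if ω = e.symm w then ν w else 0 := by
    intro ω
    by_cases h2 : e ω = w
    · rw [if_pos h2, if_pos (by rw [← h2, Equiv.symm_apply_apply]), h, h2]
    · rw [if_neg h2, if_neg (fun h3 => h2 (by rw [h3, Equiv.apply_symm_apply]))]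
  rw [Finset.sum_congr rfl (fun ω _ => h1 ω), Finset.sum_ite_eq']
  simp

theorem ent_equiv {Ω' : Type} [Fintype Ω'] {ν : Ω' → ℝ} (e : Ω ≃ Ω') (h : ∀ ω, μ ω = ν (e ω))
    {α : Type} (f : Ω' → α) : ent μ (fun ω => f (e ω)) = ent ν f := by
  rw [ent_comp (μ := μ) (φ := e) f, prb_equiv e h]

theorem prb_id {α : Type} [Fintype α] (ν : α → ℝ) : prb ν (fun a => a) = ν :=
  prb_equiv (Equiv.refl α) (fun _ => rfl)

open scoped Classical in
theorem prb_pair_eq {α β : Type} (f : Ω → α) (h : Ω → β) (a : α) (c : β) :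
    prb μ (fun ω => (f ω, h ω)) (a, c)
      = ∑ ω, if f ω = a then (if h ω = c then μ ω else 0) else 0 := by
  unfold prb
  refine Finset.sum_congr rfl (fun ω _ => ?_)
  dsimp only
  by_cases h2 : f ω = a
  · by_cases h3 : h ω = c
    · rw [if_pos h2, if_pos h3, if_pos (by rw [h2, h3])]
    · rw [if_pos h2, if_neg h3, if_neg (fun h4 => h3 (Prod.ext_iff.1 h4).2)]
  · rw [if_neg h2, if_neg (fun h4 => h2 (Prod.ext_iff.1 h4).1)]

open scoped Classical in
theorem sum_prb_pair_image {α β : Type} (f : Ω → α) (h : Ω → β) (c : β) (S : Finset α)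
    (hS : Finset.univ.image f ⊆ S) :
    ∑ a ∈ S, prb μ (fun ω => (f ω, h ω)) (a, c) = prb μ h c := by
  simp_rw [prb_pair_eq]
  rw [Finset.sum_comm]
  unfold prb
  refine Finset.sum_congr rfl (fun ω _ => ?_)
  rw [Finset.sum_ite_eq, if_pos (hS (Finset.mem_image_of_mem f (Finset.mem_univ ω)))]

theorem sum_prb_pair {α β : Type} [Fintype α] (f : Ω → α) (h : Ω → β) (c : β) :
    ∑ a, prb μ (fun ω => (f ω, h ω)) (a, c) = prb μ h c := by
  classical
  exact sum_prb_pair_image f h c Finset.univ (Finset.subset_univ _)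

theorem prb_pair_le (hμ : PM μ) {α β : Type} (f : Ω → α) (h : Ω → β) (a : α) (c : β) :
    prb μ (fun ω => (f ω, h ω)) (a, c) ≤ prb μ h c := by
  classical
  unfold prb
  refine Finset.sum_le_sum (fun ω _ => ?_)
  by_cases h1 : (f ω, h ω) = (a, c)
  · rw [if_pos h1, if_pos (Prod.ext_iff.1 h1).2]
  · rw [if_neg h1]
    split_ifs
    · exact hμ.nonneg ω
    · exact le_refl _

/-- submodularity -/
theorem ent_submod (hμ : PM μ) {α β γ : Type} (f : Ω → α) (g : Ω → β) (h : Ω → γ) :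
    ent μ (fun ω => (f ω, g ω, h ω)) + ent μ h ≤
      ent μ (fun ω => (f ω, h ω)) + ent μ (fun ω => (g ω, h ω)) := by
  classical
  set Q : α × β × γ → ℝ := fun t => prb μ (fun ω => (f ω, h ω)) (t.1, t.2.2) *
    prb μ (fun ω => (g ω, h ω)) (t.2.1, t.2.2) / prb μ h t.2.2 with hQ
  have hQ0 : ∀ t, 0 ≤ Q t := fun t => div_nonneg
    (mul_nonneg (prb_nonneg hμ _ _) (prb_nonneg hμ _ _)) (prb_nonneg hμ _ _)
  have hsum : ∀ {δ : Type} (u : Ω → δ) (c : γ), ∑ a ∈ Finset.univ.image u,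
      prb μ (fun ω => (u ω, h ω)) (a, c) = prb μ h c := fun u c =>
    sum_prb_pair_image u h c _ (Finset.Subset.refl _)
  have h1 := ent_le_cross hμ (fun ω => (f ω, g ω, h ω)) Q
    ((Finset.univ.image f) ×ˢ ((Finset.univ.image g) ×ˢ (Finset.univ.image h)))
    (fun ω => Finset.mem_product.2 ⟨Finset.mem_image_of_mem _ (Finset.mem_univ _),
        Finset.mem_product.2 ⟨Finset.mem_image_of_mem _ (Finset.mem_univ _),
          Finset.mem_image_of_mem _ (Finset.mem_univ _)⟩⟩) (fun t _ => hQ0 t)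
    (fun ω hω => div_pos (mul_pos (prb_pos hμ (fun ω => (f ω, h ω)) ω hω)
      (prb_pos hμ (fun ω => (g ω, h ω)) ω hω)) (prb_pos hμ h ω hω)) ?_
  · have h2 : ∀ ω, μ ω * (-log (Q (f ω, g ω, h ω)))
        = μ ω * (-log (prb μ (fun ω => (f ω, h ω)) (f ω, h ω)))
          + μ ω * (-log (prb μ (fun ω => (g ω, h ω)) (g ω, h ω)))
          - μ ω * (-log (prb μ h (h ω))) := by
      intro ω
      rcases (hμ.nonneg ω).lt_or_eq with h0 | h0
      · have a1 := prb_pos hμ (fun ω => (f ω, h ω)) ω h0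
        have a2 := prb_pos hμ (fun ω => (g ω, h ω)) ω h0
        have a3 := prb_pos hμ h ω h0
        rw [hQ]
        dsimp only
        rw [log_div (mul_pos a1 a2).ne' a3.ne', log_mul a1.ne' a2.ne']
        ring
      · rw [← h0]
        simp
    rw [Finset.sum_congr rfl (fun ω _ => h2 ω), Finset.sum_sub_distrib,
      Finset.sum_add_distrib] at h1
    unfold ent at h1 ⊢
    linarith
  · rw [Finset.sum_product]
    have h4 : ∀ a ∈ Finset.univ.image f,
        ∑ y ∈ (Finset.univ.image g) ×ˢ (Finset.univ.image h), Q (a, y)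
          = ∑ c ∈ Finset.univ.image h, prb μ (fun ω => (f ω, h ω)) (a, c) *
              (prb μ h c / prb μ h c) := by
      intro a _
      rw [Finset.sum_product_right]
      refine Finset.sum_congr rfl (fun c _ => ?_)
      rw [hQ]
      dsimp only
      rw [← Finset.sum_div, ← Finset.mul_sum, hsum g c, mul_div_assoc]
    rw [Finset.sum_congr rfl h4, Finset.sum_comm]
    have h5 : ∀ c ∈ Finset.univ.image h, ∑ a ∈ Finset.univ.image f,
        prb μ (fun ω => (f ω, h ω)) (a, c) * (prb μ h c / prb μ h c) ≤ prb μ h c := by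
      intro c _
      rw [← Finset.sum_mul, hsum f c]
      by_cases h6 : prb μ h c = 0
      · rw [h6, zero_mul]
      · rw [div_self h6, mul_one]
    refine le_trans (Finset.sum_le_sum h5) (le_of_eq ?_)
    have h7 := sum_prb_mul_image (μ := μ) h _ (le_refl _) (fun _ => 1)
    simpa [hμ.sum] using h7

theorem cmi_nonneg (hμ : PM μ) {α β γ : Type} (f : Ω → α) (g : Ω → β) (h : Ω → γ) :
    0 ≤ cmi μ f g h := by
  have h1 := ent_submod hμ f g h
  unfold cmi
  linarith

/-- subadditivity -/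
theorem ent_pair_le (hμ : PM μ) {α β : Type} (f : Ω → α) (g : Ω → β) :
    ent μ (fun ω => (f ω, g ω)) ≤ ent μ f + ent μ g := by
  have h := ent_submod hμ f g (fun _ => ())
  have h1 : ent μ (fun ω => (f ω, g ω, ())) = ent μ (fun ω => (f ω, g ω)) :=
    ent_congr (fun ω ω' => by simp)
  have h2 : ent μ (fun ω => (f ω, ())) = ent μ f := ent_congr (fun ω ω' => by simp)
  have h3 : ent μ (fun ω => (g ω, ())) = ent μ g := ent_congr (fun ω ω' => by simp)
  have h4 : 0 ≤ ent μ (fun _ : Ω => ()) := ent_nonneg hμ _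
  rw [h1, h2, h3] at h
  linarith

end basic

section product

variable {Ω Ω' : Type} [Fintype Ω] [Fintype Ω'] {μ : Ω → ℝ} {ν : Ω' → ℝ}

theorem PM.prd (hμ : PM μ) (hν : PM ν) : PM (prd μ ν) := by
  refine ⟨fun w => mul_nonneg (hμ.nonneg _) (hν.nonneg _), ?_⟩
  unfold PFR.prd
  rw [Fintype.sum_prod_type]
  simp_rw [← Finset.mul_sum, hν.sum, mul_one, hμ.sum]

/-- independence -/
theorem prb_prd {α β : Type} (f : Ω → α) (g : Ω' → β) (a : α) (b : β) :
    prb (prd μ ν) (fun w => (f w.1, g w.2)) (a, b) = prb μ f a * prb ν g b := by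
  classical
  unfold prb prd
  rw [Fintype.sum_prod_type, Finset.sum_mul]
  refine Finset.sum_congr rfl (fun ω _ => ?_)
  rw [Finset.mul_sum]
  refine Finset.sum_congr rfl (fun ω' _ => ?_)
  dsimp only
  by_cases h1 : f ω = a
  · by_cases h2 : g ω' = b
    · rw [if_pos h1, if_pos h2, if_pos (by rw [h1, h2])]
    · rw [if_neg h2, if_neg (fun h3 => h2 (Prod.ext_iff.1 h3).2), mul_zero]
  · rw [if_neg h1, if_neg (fun h3 => h1 (Prod.ext_iff.1 h3).1), zero_mul]

theorem prb_fst (hν : PM ν) {α : Type} (f : Ω → α) (a : α) :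
    prb (prd μ ν) (fun w => f w.1) a = prb μ f a := by
  classical
  unfold prb prd
  rw [Fintype.sum_prod_type]
  refine Finset.sum_congr rfl (fun ω _ => ?_)
  dsimp only
  by_cases h1 : f ω = a
  · rw [if_pos h1]
    simp_rw [if_pos h1]
    rw [← Finset.mul_sum, hν.sum, mul_one]
  · rw [if_neg h1]
    simp_rw [if_neg h1]
    exact Finset.sum_const_zero

theorem prb_snd (hμ : PM μ) {β : Type} (g : Ω' → β) (b : β) :
    prb (prd μ ν) (fun w => g w.2) b = prb ν g b := by
  classical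
  unfold prb prd
  rw [Fintype.sum_prod_type_right]
  refine Finset.sum_congr rfl (fun ω _ => ?_)
  dsimp only
  by_cases h1 : g ω = b
  · rw [if_pos h1]
    simp_rw [if_pos h1]
    rw [← Finset.sum_mul, hμ.sum, one_mul]
  · rw [if_neg h1]
    simp_rw [if_neg h1]
    exact Finset.sum_const_zero

theorem ent_fst (hν : PM ν) {α : Type} (f : Ω → α) :
    ent (prd μ ν) (fun w => f w.1) = ent μ f := by
  unfold ent
  rw [Fintype.sum_prod_type]
  refine Finset.sum_congr rfl (fun ω _ => ?_)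
  dsimp only
  simp_rw [prb_fst hν]
  rw [← Finset.sum_mul]
  have h : ∑ x, prd μ ν (ω, x) = μ ω := by
    show ∑ x, μ ω * ν x = μ ω
    rw [← Finset.mul_sum, hν.sum, mul_one]
  rw [h]

theorem ent_snd (hμ : PM μ) {β : Type} (g : Ω' → β) :
    ent (prd μ ν) (fun w => g w.2) = ent ν g := by
  unfold ent
  rw [Fintype.sum_prod_type_right]
  refine Finset.sum_congr rfl (fun ω _ => ?_)
  dsimp only
  simp_rw [prb_snd hμ]
  rw [← Finset.sum_mul]
  have h : ∑ x, prd μ ν (x, ω) = ν ω := by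
    show ∑ x, μ x * ν ω = ν ω
    rw [← Finset.sum_mul, hμ.sum, one_mul]
  rw [h]

/-- entropies of independent variables add up -/
theorem ent_prd (hμ : PM μ) (hν : PM ν) {α β : Type} (f : Ω → α) (g : Ω' → β) :
    ent (prd μ ν) (fun w => (f w.1, g w.2)) = ent μ f + ent ν g := by
  have h1 : ∀ w : Ω × Ω', prd μ ν w *
      (-log (prb (prd μ ν) (fun w => (f w.1, g w.2)) (f w.1, g w.2))) =
      prd μ ν w * (-log (prb (prd μ ν) (fun w => f w.1) (f w.1))) +
      prd μ ν w * (-log (prb (prd μ ν) (fun w => g w.2) (g w.2))) := by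
    intro w
    rw [prb_prd, prb_fst hν, prb_snd hμ]
    rcases (hμ.nonneg w.1).lt_or_eq with h0 | h0
    · rcases (hν.nonneg w.2).lt_or_eq with h0' | h0'
      · rw [log_mul (prb_pos hμ f _ h0).ne' (prb_pos hν g _ h0').ne']
        ring
      · unfold prd
        rw [← h0']
        simp
    · unfold prd
      rw [← h0]
      simp
  have h2 := Finset.sum_congr rfl (fun w (_ : w ∈ Finset.univ) => h1 w)
  rw [Finset.sum_add_distrib] at h2
  rw [← ent_fst (μ := μ) hν f, ← ent_snd (ν := ν) hμ g]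
  exact h2

end product

end Pool.Agent.Lib.PFR
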