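import Pool.Agent.Lib.PFR.Min

/-!
# PFR.Est: the fibring identity and the first and second estimates
-/

set_option autoImplicit false
set_option linter.unusedSectionVars false

namespace Pool.Agent.Lib.PFR

open Real

variable {G : Type} [AddCommGroup G] [Fintype G]

/-- entropy of a law -/
noncomputable def hh (p : G → ℝ) : ℝ := ent p (fun g => g)

/-- entropy of the sum of two independent variables -/
noncomputable def hs (p q : G → ℝ) : ℝ := ent (prd p q) (fun w => w.1 + w.2)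

theorem dl_eq (p q : G → ℝ) : dl p q = hs p q - hh p / 2 - hh q / 2 := rfl

theorem hs_symm (p q : G → ℝ) : hs p q = hs q p := by
  have h := dl_symm p q
  rw [dl_eq, dl_eq] at h
  linarith

/-- the four-fold product; the variables are `((y₁,y₃),(y₂,y₄))` -/
noncomputable def qd (a c b d : G → ℝ) : (G × G) × (G × G) → ℝ := prd (prd a c) (prd b d)

/-- the sum of all four -/
def sm (w : (G × G) × (G × G)) : G := (w.1.1 + w.1.2) + (w.2.1 + w.2.2)

section fibring

variable {a b c d : G → ℝ}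

theorem PM.qd (ha : PM a) (hc : PM c) (hb : PM b) (hd : PM d) : PM (qd a c b d) :=
  (ha.prd hc).prd (hb.prd hd)

theorem ent_qd_col (ha : PM a) (hc : PM c) (hb : PM b) (hd : PM d) :
    ent (qd a c b d) (fun w => (w.2.1 + w.2.2, sm w)) = hs a c + hs b d := by
  have h1 := ent_prd (ha.prd hc) (hb.prd hd) (fun w : G × G => w.1 + w.2)
    (fun w : G × G => w.1 + w.2)
  unfold hs
  rw [← h1]
  refine ent_congr (fun w w' => ?_)
  unfold sm
  simp only [Prod.mk.injEq]
  constructor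
  · rintro ⟨h, h'⟩
    rw [h] at h'
    exact ⟨add_right_cancel h', h⟩
  · rintro ⟨h, h'⟩
    rw [h, h']
    exact ⟨rfl, rfl⟩

theorem ent_qd_comm {α : Type} (F : (G × G) × (G × G) → α) :
    ent (qd a c b d) (fun w => F ((w.1.1, w.2.1), (w.1.2, w.2.2))) = ent (qd a b c d) F := by
  refine ent_equiv (μ := qd a c b d) (ν := qd a b c d) (Equiv.prodProdProdComm G G G G)
    (fun w => ?_) F
  show a w.1.1 * c w.1.2 * (b w.2.1 * d w.2.2) = a w.1.1 * b w.2.1 * (c w.1.2 * d w.2.2)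
  ring

theorem ent_qd_row (ha : PM a) (hc : PM c) (hb : PM b) (hd : PM d) :
    ent (qd a c b d) (fun w => (w.1.1 + w.2.1, sm w)) = hs a b + hs c d := by
  have h1 := ent_qd_col ha hb hc hd
  have h2 := ent_qd_comm (a := a) (b := b) (c := c) (d := d)
    (fun w : (G × G) × (G × G) => (w.2.1 + w.2.2, sm w))
  rw [h1] at h2
  rw [← h2]
  refine ent_congr (fun w w' => ?_)
  simp only [Prod.mk.injEq]
  have e : ∀ w : (G × G) × (G × G), sm ((w.1.1, w.2.1), (w.1.2, w.2.2)) = sm w := by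
    intro w
    unfold sm
    dsimp only
    abel
  have e2 : ∀ w : (G × G) × (G × G), sm w = (w.1.1 + w.2.1) + (w.1.2 + w.2.2) := by
    intro w
    unfold sm
    abel
  rw [e, e, e2, e2]
  constructor
  · rintro ⟨h, h'⟩
    rw [h] at h'
    rw [add_left_cancel h', h]
    exact ⟨rfl, rfl⟩
  · rintro ⟨h, h'⟩
    rw [h] at h'
    rw [add_right_cancel h', h]
    exact ⟨rfl, rfl⟩

theorem ent_qd_three :
    ent (qd a c b d) (fun w => (w.1.1 + w.2.1, w.2.1 + w.2.2, sm w)) =
      ent (qd a c b d) (fun w => (w.1.1 + w.2.1, w.1.1 + w.1.2, w.2.1 + w.2.2)) := by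
  refine ent_congr (fun w w' => ?_)
  unfold sm
  simp only [Prod.mk.injEq]
  constructor
  · rintro ⟨h, h', h''⟩
    rw [h'] at h''
    exact ⟨h, add_right_cancel h'', h'⟩
  · rintro ⟨h, h', h''⟩
    rw [h', h'']
    exact ⟨h, rfl, rfl⟩

/-- the fibring identity -/
theorem fib (ha : PM a) (hc : PM c) (hb : PM b) (hd : PM d) :
    ent (qd a c b d) sm +
      ent (qd a c b d) (fun w => (w.1.1 + w.2.1, w.1.1 + w.1.2, w.2.1 + w.2.2)) +
      cmi (qd a c b d) (fun w => w.1.1 + w.2.1) (fun w => w.2.1 + w.2.2) sm =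
    hs a b + hs c d + hs a c + hs b d := by
  unfold cmi
  rw [ent_qd_row ha hc hb hd, ent_qd_col ha hc hb hd, ent_qd_three]
  ring

theorem ent_pair_sum (ha : PM a) (hc : PM c) :
    ent (prd a c) (fun w => (w.1, w.1 + w.2)) = hh a + hh c := by
  have h1 := ent_prd ha hc (fun g : G => g) (fun g : G => g)
  unfold hh
  rw [← h1]
  refine ent_congr (fun w w' => ?_)
  simp only [Prod.mk.injEq]
  constructor
  · rintro ⟨h, h'⟩
    rw [h] at h'
    exact ⟨h, add_left_cancel h'⟩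
  · rintro ⟨h, h'⟩
    rw [h, h']
    exact ⟨rfl, rfl⟩

theorem ent_fst_hh (hc : PM c) : ent (prd a c) (fun w => w.1) = hh a :=
  ent_fst hc (fun g : G => g)

theorem rd_fst (hc : PM c) (r : G → ℝ) :
    rd r (prd a c) (fun g => g) (fun w => w.1) = dl r a := by
  unfold dl
  refine rd_congr rfl ?_
  funext g
  exact prb_fst hc (fun g : G => g) g

theorem rd_sum_le (ha : PM a) (hc : PM c) {r : G → ℝ} (hr : PM r) :
    rd r (prd a c) (fun g => g) (fun w => w.1 + w.2) ≤ dl r a + (hs a c - hh a) / 2 :=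
  rd_add_le ha hc hr (fun g => g) (fun g => g)

theorem rd_sum_le' (ha : PM a) (hc : PM c) {r : G → ℝ} (hr : PM r) :
    rd r (prd a c) (fun g => g) (fun w => w.1 + w.2) ≤ dl r c + (hs a c - hh c) / 2 :=
  rd_add_le' ha hc hr (fun g => g) (fun g => g)

theorem crd_fst_le (ha : PM a) (hc : PM c) {r : G → ℝ} (hr : PM r) :
    crd r (prd a c) (fun w => w.1) (fun w => w.1 + w.2) ≤ dl r a + (hs a c - hh c) / 2 := by
  have h1 := crd_le (ha.prd hc) hr (fun w : G × G => w.1) (fun w : G × G => w.1 + w.2)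
  rw [rd_fst hc, ent_fst_hh hc, ent_pair_sum ha hc] at h1
  unfold hs
  linarith

variable {η : ℝ} {r₁ r₂ p q : G → ℝ}

/-- lower bound for the entropy of the sum -/
theorem IsMn.sum_ge (h : IsMn η r₁ r₂ p q) (ha : PM a) (hc : PM c) (hb : PM b) (hd : PM d) :
    tau η r₁ r₂ p q ≤ ent (qd a c b d) sm - hs a c / 2 - hs b d / 2 +
      η * rd r₁ (prd a c) (fun g => g) (fun w => w.1 + w.2) +
      η * rd r₂ (prd b d) (fun g => g) (fun w => w.1 + w.2) :=
  h.le_rv (ha.prd hc) (hb.prd hd) (fun w => w.1 + w.2) (fun w => w.1 + w.2)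

/-- lower bound for the entropy of three sums -/
theorem IsMn.three_ge (h : IsMn η r₁ r₂ p q) (ha : PM a) (hc : PM c) (hb : PM b) (hd : PM d) :
    tau η r₁ r₂ p q ≤
      ent (qd a c b d) (fun w => (w.1.1 + w.2.1, w.1.1 + w.1.2, w.2.1 + w.2.2)) -
      hs a c / 2 - (hh a + hh c) / 2 - hs b d / 2 - (hh b + hh d) / 2 +
      η * crd r₁ (prd a c) (fun w => w.1) (fun w => w.1 + w.2) +
      η * crd r₂ (prd b d) (fun w => w.1) (fun w => w.1 + w.2) := by
  have h1 := h.le_cond (ha.prd hc) (hb.prd hd) (fun w => w.1) (fun w => w.1)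
    (fun w => w.1 + w.2) (fun w => w.1 + w.2)
  rw [ent_pair_sum ha hc, ent_pair_sum hb hd] at h1
  exact h1

end fibring

section estimates

variable {η : ℝ} {r₁ r₂ p q : G → ℝ}

/-- `I[X₁+X₂ : X̃₁+X₂ | S]` -/
noncomputable def I₁ (p q : G → ℝ) : ℝ :=
  cmi (qd p q q p) (fun w => w.1.1 + w.2.1) (fun w => w.2.1 + w.2.2) sm

/-- `I[X₁+X₂ : X₂+X̃₂ | S]` -/
noncomputable def I₂ (p q : G → ℝ) : ℝ :=
  cmi (qd p p q q) (fun w => w.1.1 + w.2.1) (fun w => w.2.1 + w.2.2) sm

theorem IsMn.first (hη : 0 ≤ η) (h : IsMn η r₁ r₂ p q) :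
    I₁ p q ≤ 2 * η * dl p q ∧
    ent (qd p q q p) sm ≤ (hh p + hh q) / 2 + (2 + η) * dl p q - I₁ p q := by
  have hp := h.pmp
  have hq := h.pmq
  have f := fib hp hq hq hp
  have s1 := h.sum_ge hp hq hq hp
  have s2 := h.three_ge hp hq hq hp
  have b1 := mul_le_mul_of_nonneg_left (rd_sum_le hp hq h.pm₁) hη
  have b2 := mul_le_mul_of_nonneg_left (rd_sum_le hq hp h.pm₂) hη
  have b3 := mul_le_mul_of_nonneg_left (crd_fst_le hp hq h.pm₁) hη
  have b4 := mul_le_mul_of_nonneg_left (crd_fst_le hq hp h.pm₂) hη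
  rw [hs_symm q p] at f s1 s2 b2 b4
  unfold I₁
  unfold tau at s1 s2
  have e := dl_eq p q
  have e1 : hs p q = dl p q + hh p / 2 + hh q / 2 := by linarith
  rw [e1] at f s1 s2 b1 b2 b3 b4
  constructor <;> linarith

theorem IsMn.second (hη : 0 ≤ η) (h : IsMn η r₁ r₂ p q) :
    I₂ p q ≤ η * (dl p p + dl q q) ∧
    (1 - η) / 2 * (dl p p + dl q q) ≤
      ent (qd p p q q) sm - (hh p + hh q) / 2 - dl p q := by
  have hp := h.pmp
  have hq := h.pmq
  have f := fib hp hp hq hq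
  have s1 := h.sum_ge hp hp hq hq
  have s2 := h.three_ge hp hp hq hq
  have b1 := mul_le_mul_of_nonneg_left (rd_sum_le hp hp h.pm₁) hη
  have b2 := mul_le_mul_of_nonneg_left (rd_sum_le hq hq h.pm₂) hη
  have b3 := mul_le_mul_of_nonneg_left (crd_fst_le hp hp h.pm₁) hη
  have b4 := mul_le_mul_of_nonneg_left (crd_fst_le hq hq h.pm₂) hη
  unfold I₂
  unfold tau at s1 s2
  have e := dl_eq p q
  have e' := dl_eq p p
  have e'' := dl_eq q q
  have e1 : hs p q = dl p q + hh p / 2 + hh q / 2 := by linarith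
  have e2 : hs p p = dl p p + hh p := by linarith
  have e3 : hs q q = dl q q + hh q := by linarith
  rw [e1, e2, e3] at f
  rw [e2] at b1 b3 s1 s2
  rw [e3] at b2 b4 s1 s2
  constructor <;> linarith

end estimates

end Pool.Agent.Lib.PFR
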