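import Pool.Agent.Lib.PFR.Dist

/-!
# PFR.Inv: distance zero
-/

set_option autoImplicit false

namespace Pool.Agent.Lib.PFR

open Real

section inv

variable {G : Type} [Fintype G] [AddCommGroup G] {p q : G → ℝ}

theorem prb_add_swap (p q : G → ℝ) (g : G) :
    prb (prd q p) (fun z => z.1 + z.2) g = prb (prd p q) (fun z => z.1 + z.2) g := by
  classical
  unfold prb prd
  refine Fintype.sum_equiv (Equiv.prodComm G G) _ _ fun z => ?_
  show (if z.1 + z.2 = g then q z.1 * p z.2 else 0) = if z.2 + z.1 = g then p z.2 * q z.1 else 0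
  rw [add_comm z.2 z.1, mul_comm (p z.2) (q z.1)]

theorem ent_add_swap (p q : G → ℝ) :
    ent (prd q p) (fun z => z.1 + z.2) = ent (prd p q) (fun z => z.1 + z.2) := by
  classical
  rw [ent_eq_sum, ent_eq_sum]
  exact Finset.sum_congr rfl fun g _ => by rw [prb_add_swap]

omit [AddCommGroup G] in
theorem ent_id_eq (hq : PM q) : ent p (fun a => a) = ∑ z : G × G, p z.1 * q z.2 * (-log (p z.1)) := by
  unfold ent
  rw [prb_id, Fintype.sum_prod_type]
  refine Finset.sum_congr rfl fun x _ => ?_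
  have h : ∀ y, p x * q y * (-log (p x)) = q y * (p x * (-log (p x))) := fun y => by ring
  simp only [h]
  rw [← Finset.sum_mul, hq.sum, one_mul]

/-- the terms of the comparison of the entropies of `X + Y` and `X` -/
theorem term_nonneg (hp : PM p) (hq : PM q) (z : G × G) :
    0 ≤ q z.2 * prb (prd p q) (fun z => z.1 + z.2) (z.1 + z.2) - p z.1 * q z.2 -
      p z.1 * q z.2 * (log (prb (prd p q) (fun z => z.1 + z.2) (z.1 + z.2)) - log (p z.1)) := by
  have hr := prb_nonneg (hp.prd hq) (fun z : G × G => z.1 + z.2) (z.1 + z.2)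
  rcases (hp.nonneg z.1).lt_or_eq with h0 | h0
  · rcases (hq.nonneg z.2).lt_or_eq with h1 | h1
    · have h2 : 0 < prb (prd p q) (fun z => z.1 + z.2) (z.1 + z.2) :=
        prb_pos (hp.prd hq) (fun z : G × G => z.1 + z.2) z (mul_pos h0 h1)
      have h3 := log_le_sub_one_of_pos (div_pos h2 h0)
      rw [log_div h2.ne' h0.ne'] at h3
      have h4 : p z.1 * (prb (prd p q) (fun z => z.1 + z.2) (z.1 + z.2) / p z.1) =
          prb (prd p q) (fun z => z.1 + z.2) (z.1 + z.2) := mul_div_cancel₀ _ h0.ne'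
      have h5 := mul_le_mul_of_nonneg_left h3 (mul_pos h0 h1).le
      nlinarith
    · rw [← h1]
      simp
  · rw [← h0]
    simp only [zero_mul, sub_zero]
    exact mul_nonneg (hq.nonneg _) hr

theorem sum_term (hp : PM p) (hq : PM q) :
    ∑ z : G × G, (q z.2 * prb (prd p q) (fun z => z.1 + z.2) (z.1 + z.2) - p z.1 * q z.2 -
      p z.1 * q z.2 * (log (prb (prd p q) (fun z => z.1 + z.2) (z.1 + z.2)) - log (p z.1))) =
      ent (prd p q) (fun z => z.1 + z.2) - ent p (fun a => a) := by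
  have h1 : ∑ z : G × G, q z.2 * prb (prd p q) (fun z => z.1 + z.2) (z.1 + z.2) = 1 := by
    rw [Fintype.sum_prod_type_right]
    have h2 : ∀ y : G, ∑ x : G, q y * prb (prd p q) (fun z => z.1 + z.2) (x + y) = q y := by
      intro y
      rw [← Finset.mul_sum]
      have h3 : ∑ x : G, prb (prd p q) (fun z => z.1 + z.2) (x + y) =
          ∑ x : G, prb (prd p q) (fun z => z.1 + z.2) x :=
        Fintype.sum_equiv (Equiv.addRight y) _ _ fun x => rfl
      rw [h3, ((hp.prd hq).law _).sum, mul_one]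
    rw [Finset.sum_congr rfl fun y _ => h2 y, hq.sum]
  have h2 : ∑ z : G × G, p z.1 * q z.2 = 1 := (hp.prd hq).sum
  have h3 : ∑ z : G × G, p z.1 * q z.2 *
      (log (prb (prd p q) (fun z => z.1 + z.2) (z.1 + z.2)) - log (p z.1)) =
      -ent (prd p q) (fun z => z.1 + z.2) + ent p (fun a => a) := by
    rw [ent_id_eq hq]
    unfold ent
    rw [← Finset.sum_neg_distrib, ← Finset.sum_add_distrib]
    refine Finset.sum_congr rfl fun z _ => ?_
    unfold prd
    ring
  rw [Finset.sum_sub_distrib, Finset.sum_sub_distrib, h1, h2, h3]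
  ring

theorem ent_le_add (hp : PM p) (hq : PM q) :
    ent p (fun a => a) ≤ ent (prd p q) (fun z => z.1 + z.2) := by
  have h := sum_term hp hq
  have h1 := Finset.sum_nonneg fun z (_ : z ∈ Finset.univ) => term_nonneg hp hq z
  rw [h] at h1
  linarith

theorem eq_of_ent_eq (hp : PM p) (hq : PM q)
    (h : ent (prd p q) (fun z => z.1 + z.2) = ent p (fun a => a)) (x y : G) (hx : 0 < p x)
    (hy : 0 < q y) : prb (prd p q) (fun z => z.1 + z.2) (x + y) = p x := by
  have h1 := sum_term hp hq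
  rw [h, sub_self] at h1
  have h2 := (Finset.sum_eq_zero_iff_of_nonneg fun z _ => term_nonneg hp hq z).1 h1 (x, y)
    (Finset.mem_univ _)
  have h3 : 0 < prb (prd p q) (fun z => z.1 + z.2) (x + y) :=
    prb_pos (hp.prd hq) (fun z : G × G => z.1 + z.2) (x, y) (mul_pos hx hy)
  by_contra hne
  have h4 : prb (prd p q) (fun z => z.1 + z.2) (x + y) / p x ≠ 1 := fun h5 =>
    hne ((div_eq_one_iff_eq hx.ne').1 h5)
  have h5 := log_lt_sub_one_of_pos (div_pos h3 hx) h4
  rw [log_div h3.ne' hx.ne'] at h5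
  have h6 : p x * (prb (prd p q) (fun z => z.1 + z.2) (x + y) / p x) =
      prb (prd p q) (fun z => z.1 + z.2) (x + y) := mul_div_cancel₀ _ hx.ne'
  have h7 := mul_lt_mul_of_pos_left h5 (mul_pos hx hy)
  dsimp only at h2
  nlinarith

open scoped Classical in
/-- **distance zero**: uniform measures on cosets -/
theorem coset_of_dist_zero {p q : G → ℝ} (hp : PM p) (hq : PM q)
    (h : dist p q = 0) : ∃ (H : AddSubgroup G) (x : G), ∀ g, p g = if g - x ∈ H then
      1 / (Nat.card H : ℝ) else 0 := by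
  have hpe := ent_le_add hp hq
  have hqe := ent_le_add hq hp
  rw [ent_add_swap] at hqe
  unfold dist at h
  have e1 : ent (prd p q) (fun z => z.1 + z.2) = ent p (fun a => a) := by linarith
  have e2 : ent (prd q p) (fun z => z.1 + z.2) = ent q (fun a => a) := by
    rw [ent_add_swap]
    linarith
  set r : G → ℝ := prb (prd p q) (fun z => z.1 + z.2) with hr
  have f1 : ∀ x y, 0 < p x → 0 < q y → r (x + y) = p x := eq_of_ent_eq hp hq e1
  have f2 : ∀ x y, 0 < p x → 0 < q y → r (x + y) = q y := by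
    intro x y hx hy
    have := eq_of_ent_eq hq hp e2 y x hy hx
    rwa [prb_add_swap, add_comm] at this
  obtain ⟨x0, hx0⟩ : ∃ x, 0 < p x := by
    by_contra hn
    push Not at hn
    have := Finset.sum_nonpos fun x (_ : x ∈ Finset.univ) => hn x
    rw [hp.sum] at this
    linarith
  obtain ⟨y0, hy0⟩ : ∃ y, 0 < q y := by
    by_contra hn
    push Not at hn
    have := Finset.sum_nonpos fun x (_ : x ∈ Finset.univ) => hn x
    rw [hq.sum] at this
    linarith
  set c : ℝ := p x0 with hc
  have hpc : ∀ x, 0 < p x → p x = c := fun x hx => by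
    rw [← f1 x y0 hx hy0, f2 x y0 hx hy0, ← f2 x0 y0 hx0 hy0, f1 x0 y0 hx0 hy0]
  have hqc : ∀ y, 0 < q y → q y = c := fun y hy => by
    rw [← f2 x0 y hx0 hy, f1 x0 y hx0 hy]
  set A : Finset G := Finset.univ.filter fun x => 0 < p x with hA
  set B : Finset G := Finset.univ.filter fun y => 0 < q y with hB
  have mA : ∀ x, x ∈ A ↔ 0 < p x := fun x => by rw [hA, Finset.mem_filter]; simp
  have mB : ∀ x, x ∈ B ↔ 0 < q x := fun x => by rw [hB, Finset.mem_filter]; simp
  have sA : ∑ x ∈ A, p x = 1 := by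
    rw [← hp.sum]
    refine Finset.sum_subset (Finset.subset_univ _) fun x _ hx => ?_
    rw [mA] at hx
    exact le_antisymm (not_lt.1 hx) (hp.nonneg x)
  have sB : ∑ x ∈ B, q x = 1 := by
    rw [← hq.sum]
    refine Finset.sum_subset (Finset.subset_univ _) fun x _ hx => ?_
    rw [mB] at hx
    exact le_antisymm (not_lt.1 hx) (hq.nonneg x)
  have cA : (A.card : ℝ) * c = 1 := by
    rw [← sA, Finset.sum_congr rfl fun x hx => hpc x ((mA x).1 hx), Finset.sum_const, nsmul_eq_mul]
  have cB : (B.card : ℝ) * c = 1 := by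
    rw [← sB, Finset.sum_congr rfl fun x hx => hqc x ((mB x).1 hx), Finset.sum_const, nsmul_eq_mul]
  have hc0 : 0 < c := hx0
  have hAB : A.card = B.card := by
    have : (A.card : ℝ) = B.card := mul_right_cancel₀ hc0.ne' (cA.trans cB.symm)
    exact_mod_cast this
  -- the sumset
  set C : Finset G := (A ×ˢ B).image fun z => z.1 + z.2 with hC
  have hCc : C.card ≤ A.card := by
    have h3 : (C.card : ℝ) * c ≤ 1 := by
      have h4 : ∑ g ∈ C, r g = (C.card : ℝ) * c := by
        rw [Finset.sum_congr rfl (g := fun _ => c) fun g hg => ?_, Finset.sum_const, nsmul_eq_mul]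
        obtain ⟨⟨x, y⟩, hz, rfl⟩ := Finset.mem_image.1 hg
        rw [Finset.mem_product] at hz
        dsimp only at hz ⊢
        rw [f1 x y ((mA x).1 hz.1) ((mB y).1 hz.2)]
        exact hpc x ((mA x).1 hz.1)
      rw [← h4, ← ((hp.prd hq).law (fun z : G × G => z.1 + z.2)).sum]
      exact Finset.sum_le_sum_of_subset_of_nonneg (Finset.subset_univ _) fun g _ _ =>
        prb_nonneg (hp.prd hq) _ g
    rw [← cA] at h3
    exact_mod_cast le_of_mul_le_mul_right h3 hc0
  have kA : ∀ y ∈ B, A.image (fun x => x + y) = C := by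
    intro y hy
    refine Finset.eq_of_subset_of_card_le (fun g hg => ?_) ?_
    · obtain ⟨x, hx, rfl⟩ := Finset.mem_image.1 hg
      exact Finset.mem_image.2 ⟨(x, y), Finset.mem_product.2 ⟨hx, hy⟩, rfl⟩
    · rw [Finset.card_image_of_injective _ (add_left_injective y)]
      exact hCc
  have kB : ∀ x ∈ A, B.image (fun y => x + y) = C := by
    intro x hx
    refine Finset.eq_of_subset_of_card_le (fun g hg => ?_) ?_
    · obtain ⟨y, hy, rfl⟩ := Finset.mem_image.1 hg
      exact Finset.mem_image.2 ⟨(x, y), Finset.mem_product.2 ⟨hx, hy⟩, rfl⟩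
    · rw [Finset.card_image_of_injective _ (add_right_injective x)]
      exact hCc.trans hAB.le
  have tA : ∀ y ∈ B, ∀ g, g ∈ A ↔ g + y ∈ C := by
    intro y hy g
    rw [← kA y hy, Finset.mem_image]
    exact ⟨fun hg => ⟨g, hg, rfl⟩, fun ⟨x, hx, h3⟩ => by rwa [← add_right_cancel h3]⟩
  have tB : ∀ x ∈ A, ∀ g, g ∈ B ↔ x + g ∈ C := by
    intro x hx g
    rw [← kB x hx, Finset.mem_image]
    exact ⟨fun hg => ⟨g, hg, rfl⟩, fun ⟨y, hy, h3⟩ => by rwa [← add_left_cancel h3]⟩
  have mx0 : x0 ∈ A := (mA x0).2 hx0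
  have my0 : y0 ∈ B := (mB y0).2 hy0
  -- the stabilizer
  let H : AddSubgroup G :=
    { carrier := {s | ∀ g, g + s ∈ A ↔ g ∈ A}
      zero_mem' := fun g => by rw [add_zero]
      add_mem' := fun {a b} ha hb g => by rw [← add_assoc, hb, ha]
      neg_mem' := fun {a} ha g => by rw [← ha (g + -a), neg_add_cancel_right] }
  have hH : ∀ g, g - x0 ∈ H ↔ g ∈ A := by
    intro g
    constructor
    · intro hg
      have h3 := (hg x0).2 mx0
      rwa [add_sub_cancel] at h3
    · intro hg k
      -- `k ∈ A ↔ k + y0 ∈ C ↔ k + y0 - x0 ∈ B ↔ k + y0 - x0 + g ∈ C ↔ k + (g - x0) ∈ A`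
      rw [tA y0 my0 k, tA y0 my0 (k + (g - x0))]
      have h3 := tB x0 mx0 (k + y0 - x0)
      have h4 := tB g hg (k + y0 - x0)
      have h5 : x0 + (k + y0 - x0) = k + y0 := by abel
      have h6 : g + (k + y0 - x0) = k + (g - x0) + y0 := by abel
      rw [h5] at h3
      rw [h6] at h4
      exact h4.symm.trans h3
  have hcard : Nat.card H = A.card := by
    rw [Nat.card_eq_fintype_card, ← Fintype.card_coe]
    refine Fintype.card_congr ⟨fun s => ⟨s.1 + x0, (hH _).1 (by
      rw [add_sub_cancel_right]; exact s.2)⟩, fun g => ⟨g.1 - x0, (hH _).2 g.2⟩, fun s => ?_,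
      fun g => ?_⟩
    · exact Subtype.ext (add_sub_cancel_right _ _)
    · exact Subtype.ext (sub_add_cancel _ _)
  refine ⟨H, x0, fun g => ?_⟩
  have hc1 : c = 1 / (Nat.card H : ℝ) := by
    rw [hcard]
    have h7 : (A.card : ℝ) ≠ 0 := fun h8 => by
      rw [h8, zero_mul] at cA
      exact zero_ne_one cA
    field_simp
    linarith
  by_cases hg : g ∈ A
  · rw [if_pos ((hH g).2 hg), hpc g ((mA g).1 hg), hc1]
  · rw [if_neg fun h3 => hg ((hH g).1 h3)]
    rw [mA] at hg
    exact le_antisymm (not_lt.1 hg) (hp.nonneg g)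

end inv

end Pool.Agent.Lib.PFR
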