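import Pool.Agent.Lib.PFR.Zero

/-!
# PFR.Main: the polynomial Freiman-Ruzsa theorem in characteristic two
(Gowers, Green, Manners, Tao), from its entropic form
-/

set_option autoImplicit false
set_option linter.unusedSectionVars false

namespace Pool.Agent.Lib.PFR

open Real
open scoped Pointwise

variable {G : Type} [AddCommGroup G] [Fintype G]

/-- a value with a large probability -/
theorem exists_prb_ge {Ω α : Type} [Fintype Ω] {μ : Ω → ℝ} (hμ : PM μ) (f : Ω → α) :
    ∃ a, exp (-ent μ f) ≤ prb μ f a := by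
  by_contra hcon
  push Not at hcon
  have e1 : ∀ ω ∈ Finset.univ, μ ω * ent μ f ≤ μ ω * (-log (prb μ f (f ω))) := by
    intro ω _
    rcases (hμ.nonneg ω).lt_or_eq with h0 | h0
    · refine mul_le_mul_of_nonneg_left ?_ h0.le
      have h3 := log_lt_log (prb_pos hμ f ω h0) (hcon (f ω))
      rw [log_exp] at h3
      linarith
    · rw [← h0]
      simp
  have e2 : ∃ ω, 0 < μ ω := by
    by_contra h3
    push Not at h3
    have h4 : ∑ ω, μ ω ≤ 0 := Finset.sum_nonpos (fun ω _ => h3 ω)
    rw [hμ.sum] at h4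
    linarith
  obtain ⟨ω₀, hω₀⟩ := e2
  have e3 : ∑ ω, μ ω * ent μ f < ∑ ω, μ ω * (-log (prb μ f (f ω))) := by
    refine Finset.sum_lt_sum e1 ⟨ω₀, Finset.mem_univ _, ?_⟩
    refine mul_lt_mul_of_pos_left ?_ hω₀
    have h3 := log_lt_log (prb_pos hμ f ω₀ hω₀) (hcon (f ω₀))
    rw [log_exp] at h3
    linarith
  rw [← Finset.sum_mul, hμ.sum, one_mul] at e3
  exact absurd e3 (lt_irrefl _)

/-- the uniform law on a finite set -/
noncomputable def ufs [DecidableEq G] (A : Finset G) : G → ℝ :=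
  fun g => if g ∈ A then ((A.card : ℝ))⁻¹ else 0

section

variable [DecidableEq G]

theorem pm_ufs {A : Finset G} (hA : A.Nonempty) : PM (ufs A) := by
  have h0 : (0 : ℝ) < A.card := by exact_mod_cast hA.card_pos
  constructor
  · intro g
    unfold ufs
    split_ifs
    · exact inv_nonneg.2 h0.le
    · exact le_refl _
  · unfold ufs
    rw [← Finset.sum_filter, Finset.filter_mem_eq_inter, Finset.univ_inter, Finset.sum_const,
      nsmul_eq_mul, mul_inv_cancel₀ h0.ne']

theorem hh_ufs {A : Finset G} (hA : A.Nonempty) : hh (ufs A) = log A.card := by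
  have h0 : (0 : ℝ) < A.card := by exact_mod_cast hA.card_pos
  unfold hh
  rw [ent_eq_sum, prb_id]
  have e1 : ∀ a, negMulLog (ufs A a) = ufs A a * log A.card := by
    intro a
    unfold ufs
    split_ifs
    · rw [negMulLog, log_inv]
      ring
    · rw [negMulLog_zero, zero_mul]
  rw [Finset.sum_congr rfl (fun a _ => e1 a), ← Finset.sum_mul, (pm_ufs hA).sum, one_mul]

theorem hh_usg (H : AddSubgroup G) : hh (usg H) = log (Nat.card H) := by
  classical
  have h0 := card_pos_sg H
  unfold hh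
  rw [ent_eq_sum, prb_id]
  have e1 : ∀ a, negMulLog (usg H a) = usg H a * log (Nat.card H) := by
    intro a
    unfold usg uco
    split_ifs
    · rw [negMulLog, log_inv]
      ring
    · rw [negMulLog_zero, zero_mul]
  rw [Finset.sum_congr rfl (fun a _ => e1 a), ← Finset.sum_mul]
  have e2 : ∑ a, usg H a = 1 := (pm_uco H 0).sum
  rw [e2, one_mul]

theorem hs_ufs_le {A : Finset G} (hA : A.Nonempty) :
    hs (ufs A) (ufs A) ≤ log ((A + A).card) := by
  have hm := (pm_ufs hA).prd (pm_ufs hA)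
  have hAA : (A + A).Nonempty := hA.add hA
  have h0 : (0 : ℝ) < (A + A).card := by exact_mod_cast hAA.card_pos
  have hmem : ∀ w : G × G, 0 < prd (ufs A) (ufs A) w → w.1 + w.2 ∈ A + A := by
    intro w hw
    unfold prd ufs at hw
    by_cases h1 : w.1 ∈ A
    · by_cases h2 : w.2 ∈ A
      · exact Finset.add_mem_add h1 h2
      · rw [if_neg h2, mul_zero] at hw
        exact absurd hw (lt_irrefl _)
    · rw [if_neg h1, zero_mul] at hw
      exact absurd hw (lt_irrefl _)
  have e1 := ent_le_cross hm (fun w : G × G => w.1 + w.2) (ufs (A + A)) Finset.univ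
    (fun _ => Finset.mem_univ _) (fun a _ => (pm_ufs hAA).nonneg a) (fun w hw => by
      unfold ufs
      rw [if_pos (hmem w hw)]
      exact inv_pos.2 h0) (le_of_eq (pm_ufs hAA).sum)
  have e2 : ∀ w, prd (ufs A) (ufs A) w * (-log (ufs (A + A) (w.1 + w.2))) =
      prd (ufs A) (ufs A) w * log ((A + A).card) := by
    intro w
    rcases (hm.nonneg w).lt_or_eq with h1 | h1
    · unfold ufs at hmem ⊢
      rw [if_pos (hmem w h1), log_inv, neg_neg]
    · rw [← h1, zero_mul, zero_mul]
  rw [Finset.sum_congr rfl (fun w _ => e2 w), ← Finset.sum_mul, hm.sum, one_mul] at e1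
  exact e1

theorem dl_ufs_le {A : Finset G} (hA : A.Nonempty) {K : ℝ}
    (hK : ((A + A).card : ℝ) ≤ K * A.card) : dl (ufs A) (ufs A) ≤ log K := by
  have h0 : (0 : ℝ) < A.card := by exact_mod_cast hA.card_pos
  have h1 : (0 : ℝ) < (A + A).card := by exact_mod_cast (hA.add hA).card_pos
  have hK0 : 0 < K := by
    by_contra h
    push Not at h
    nlinarith
  have e1 := hs_ufs_le hA
  have e2 := log_le_log h1 hK
  rw [log_mul hK0.ne' h0.ne'] at e2
  rw [dl_eq, hh_ufs hA]
  linarith

open scoped Classical in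
/-- the intersection with a coset -/
noncomputable def coi (A : Finset G) (H : AddSubgroup G) (x : G) : Finset G :=
  A.filter (fun a => -x + a ∈ H)

theorem mem_coi {A : Finset G} {H : AddSubgroup G} {x a : G} :
    a ∈ coi A H x ↔ a ∈ A ∧ -x + a ∈ H := by
  classical
  simp only [coi, Finset.mem_filter]

theorem prb_coi (h2 : ∀ g : G, g + g = 0) (A : Finset G) (H : AddSubgroup G) (x : G) :
    prb (prd (ufs A) (usg H)) (fun w => w.1 + w.2) x =
      ((coi A H x).card : ℝ) * ((A.card : ℝ)⁻¹ * (Nat.card H : ℝ)⁻¹) := by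
  classical
  rw [prb_sum_eq h2]
  have e1 : ∑ y, usg H y * ufs A (x + y) = ∑ a, usg H (-x + a) * ufs A a :=
    Fintype.sum_equiv (Equiv.addLeft x) _ _ (fun y => by
      rw [Equiv.coe_addLeft, neg_add_cancel_left])
  rw [e1]
  have e2 : ∀ a, usg H (-x + a) * ufs A a =
      if a ∈ coi A H x then (A.card : ℝ)⁻¹ * (Nat.card H : ℝ)⁻¹ else 0 := by
    intro a
    unfold usg uco ufs
    rw [zero_add]
    by_cases h1 : a ∈ A
    · by_cases h3 : -x + a ∈ H
      · rw [if_pos h1, if_pos h3, if_pos (mem_coi.2 ⟨h1, h3⟩)]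
        ring
      · rw [if_neg h3, if_neg (fun h => h3 (mem_coi.1 h).2), zero_mul]
    · rw [if_neg h1, if_neg (fun h => h1 (mem_coi.1 h).1), mul_zero]
  rw [Finset.sum_congr rfl (fun a _ => e2 a), ← Finset.sum_filter, Finset.filter_mem_eq_inter,
    Finset.univ_inter, Finset.sum_const, nsmul_eq_mul]

/-- **the polynomial Freiman-Ruzsa theorem in characteristic two**: a popular coset -/
theorem pfr (h2 : ∀ g : G, g + g = 0) (A : Finset G) (hA : A.Nonempty) (K : ℝ)
    (hK : ((A + A).card : ℝ) ≤ K * A.card) :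
    ∃ (H : AddSubgroup G) (x : G),
      (A.card : ℝ) * (Nat.card H : ℝ) ≤ K ^ 11 * ((coi A H x).card : ℝ) ^ 2 ∧
      (A.card : ℝ) ≤ K ^ 11 * ((coi A H x).card : ℝ) ∧
      (Nat.card H : ℝ) ≤ K ^ 11 * ((coi A H x).card : ℝ) := by
  classical
  have h0 : (0 : ℝ) < A.card := by exact_mod_cast hA.card_pos
  have h1 : (0 : ℝ) < (A + A).card := by exact_mod_cast (hA.add hA).card_pos
  have hK0 : 0 < K := by
    by_contra h
    push Not at h
    nlinarith
  obtain ⟨H, hH⟩ := pfr_ent h2 (ufs A) (ufs A) (pm_ufs hA) (pm_ufs hA)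
  have hd := dl_ufs_le hA hK
  have hHp := card_pos_sg H
  have hpm : PM (usg H) := pm_uco H 0
  have e1 : 2 * dl (ufs A) (usg H) ≤ 11 * log K := by linarith
  obtain ⟨x, hx⟩ := exists_prb_ge ((pm_ufs hA).prd hpm) (fun w : G × G => w.1 + w.2)
  rw [prb_coi h2] at hx
  have e2 : ent (prd (ufs A) (usg H)) (fun w => w.1 + w.2) =
      dl (ufs A) (usg H) + log A.card / 2 + log (Nat.card H) / 2 := by
    have h3 := dl_eq (ufs A) (usg H)
    rw [hh_ufs hA, hh_usg] at h3
    unfold hs at h3
    linarith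
  have e3 : |log A.card - log (Nat.card H)| ≤ 2 * dl (ufs A) (usg H) := by
    have h3 := abs_ent_sub_le (pm_ufs hA) hpm (fun g : G => g) (fun g : G => g)
    have h4 : ent (ufs A) (fun g => g) = log A.card := hh_ufs hA
    have h5 : ent (usg H) (fun g => g) = log (Nat.card H) := hh_usg H
    rw [h4, h5] at h3
    exact h3
  have e4 : 0 < ((coi A H x).card : ℝ) := by
    have h3 := lt_of_lt_of_le (exp_pos _) hx
    by_contra h4
    have h5 : ((coi A H x).card : ℝ) = 0 := le_antisymm (not_lt.1 h4) (Nat.cast_nonneg _)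
    rw [h5, zero_mul] at h3
    exact absurd h3 (lt_irrefl _)
  have e5 : -(dl (ufs A) (usg H) + log A.card / 2 + log (Nat.card H) / 2) ≤
      log ((coi A H x).card) - log A.card - log (Nat.card H) := by
    have h3 := log_le_log (exp_pos _) hx
    rw [log_exp, e2, log_mul e4.ne' (mul_pos (inv_pos.2 h0) (inv_pos.2 hHp)).ne',
      log_mul (inv_pos.2 h0).ne' (inv_pos.2 hHp).ne', log_inv, log_inv] at h3
    linarith
  obtain ⟨e6, e7⟩ := abs_le.1 e3
  have e8 : log (K ^ 11) = 11 * log K := by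
    rw [log_pow]
    norm_num
  have hK11 : 0 < K ^ 11 := pow_pos hK0 11
  refine ⟨H, x, ?_, ?_, ?_⟩
  · rw [← log_le_log_iff (mul_pos h0 hHp) (mul_pos hK11 (pow_pos e4 2)),
      log_mul h0.ne' hHp.ne', log_mul hK11.ne' (pow_pos e4 2).ne', e8, log_pow]
    push_cast
    linarith
  · rw [← log_le_log_iff h0 (mul_pos hK11 e4), log_mul hK11.ne' e4.ne', e8]
    linarith
  · rw [← log_le_log_iff hHp (mul_pos hK11 e4), log_mul hK11.ne' e4.ne', e8]
    linarith

end

end Pool.Agent.Lib.PFR
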