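import Pool.Agent.Lib.PFR.Bsg

/-!
# PFR.Min: minimisers of the functional `d[X;Y] + η d[X₀;X] + η d[Y₀;Y]`
-/

set_option autoImplicit false
set_option linter.unusedSectionVars false

namespace Pool.Agent.Lib.PFR

open Real

variable {G : Type} [AddCommGroup G] [Fintype G]

/-- the functional -/
noncomputable def tau (η : ℝ) (r₁ r₂ p q : G → ℝ) : ℝ :=
  dl p q + η * dl r₁ p + η * dl r₂ q

/-- minimisers -/
structure IsMn (η : ℝ) (r₁ r₂ p q : G → ℝ) : Prop where
  pm₁ : PM r₁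
  pm₂ : PM r₂
  pmp : PM p
  pmq : PM q
  le : ∀ p' q' : G → ℝ, PM p' → PM q' → tau η r₁ r₂ p q ≤ tau η r₁ r₂ p' q'

section existence

theorem continuous_prb {X : Type} [TopologicalSpace X] {Ω : Type} [Fintype Ω] {α : Type}
    (F : X → Ω → ℝ) (hF : ∀ ω, Continuous fun x => F x ω) (f : Ω → α) (a : α) :
    Continuous fun x => prb (F x) f a := by
  classical
  unfold prb
  refine continuous_finsetSum _ (fun ω _ => ?_)
  by_cases h : f ω = a
  · simp only [if_pos h]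
    exact hF ω
  · simp only [if_neg h]
    exact continuous_const

theorem continuous_ent {X : Type} [TopologicalSpace X] {Ω : Type} [Fintype Ω] {α : Type}
    [Fintype α] (F : X → Ω → ℝ) (hF : ∀ ω, Continuous fun x => F x ω) (f : Ω → α) :
    Continuous fun x => ent (F x) f := by
  simp_rw [ent_eq_sum]
  refine continuous_finsetSum _ (fun a _ => ?_)
  exact continuous_negMulLog.comp (continuous_prb F hF f a)

theorem continuous_rd {X : Type} [TopologicalSpace X] (F F' : X → G → ℝ)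
    (hF : ∀ g, Continuous fun x => F x g) (hF' : ∀ g, Continuous fun x => F' x g) :
    Continuous fun x => dl (F x) (F' x) := by
  unfold dl rd
  refine Continuous.sub (Continuous.sub ?_ ?_) ?_
  · refine continuous_ent (fun x => prd (F x) (F' x)) (fun ω => ?_) _
    exact (hF ω.1).mul (hF' ω.2)
  · exact (continuous_ent F hF _).div_const 2
  · exact (continuous_ent F' hF' _).div_const 2

theorem pm_iff (p : G → ℝ) : PM p ↔ p ∈ stdSimplex ℝ G :=
  ⟨fun h => ⟨h.nonneg, h.sum⟩, fun h => ⟨h.1, h.2⟩⟩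

/-- minimisers exist -/
theorem exists_isMn (η : ℝ) (r₁ r₂ : G → ℝ) (h₁ : PM r₁) (h₂ : PM r₂) :
    ∃ p q : G → ℝ, IsMn η r₁ r₂ p q := by
  have hK : IsCompact ((stdSimplex ℝ G) ×ˢ (stdSimplex ℝ G)) :=
    (isCompact_stdSimplex ℝ G).prod (isCompact_stdSimplex ℝ G)
  have hne : ((stdSimplex ℝ G) ×ˢ (stdSimplex ℝ G)).Nonempty :=
    ⟨(r₁, r₂), (pm_iff r₁).1 h₁, (pm_iff r₂).1 h₂⟩
  have hc : Continuous fun x : (G → ℝ) × (G → ℝ) => tau η r₁ r₂ x.1 x.2 := by
    unfold tau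
    refine Continuous.add (Continuous.add ?_ ?_) ?_
    · exact continuous_rd _ _ (fun g => (continuous_apply g).comp continuous_fst)
        (fun g => (continuous_apply g).comp continuous_snd)
    · exact continuous_const.mul (continuous_rd _ _ (fun g => continuous_const)
        (fun g => (continuous_apply g).comp continuous_fst))
    · exact continuous_const.mul (continuous_rd _ _ (fun g => continuous_const)
        (fun g => (continuous_apply g).comp continuous_snd))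
  obtain ⟨x, hx, hmin⟩ := hK.exists_isMinOn hne hc.continuousOn
  refine ⟨x.1, x.2, h₁, h₂, (pm_iff _).2 hx.1, (pm_iff _).2 hx.2, fun p' q' hp' hq' => ?_⟩
  exact hmin (a := (p', q')) ⟨(pm_iff _).1 hp', (pm_iff _).1 hq'⟩

end existence

section use

variable {η : ℝ} {r₁ r₂ p q : G → ℝ}
variable {Ω Ω' : Type} [Fintype Ω] [Fintype Ω'] {μ : Ω → ℝ} {ν : Ω' → ℝ}

theorem IsMn.le_rv (h : IsMn η r₁ r₂ p q) (hμ : PM μ) (hν : PM ν) (X : Ω → G) (Y : Ω' → G) :
    tau η r₁ r₂ p q ≤ rd μ ν X Y + η * rd r₁ μ (fun g => g) X + η * rd r₂ ν (fun g => g) Y := by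
  have h1 := h.le (prb μ X) (prb ν Y) (hμ.law X) (hν.law Y)
  have h3 : rd μ ν X Y = dl (prb μ X) (prb ν Y) := rd_eq_dl X Y
  have h4 : rd r₁ μ (fun g => g) X = dl r₁ (prb μ X) := by
    rw [rd_eq_dl, prb_id]
  have h5 : rd r₂ ν (fun g => g) Y = dl r₂ (prb ν Y) := by
    rw [rd_eq_dl, prb_id]
  rw [h3, h4, h5]
  exact h1

/-- averaged minimality -/
theorem IsMn.le_cond (h : IsMn η r₁ r₂ p q) (hμ : PM μ) (hν : PM ν) {ι ι' : Type}
    [Fintype ι] [Fintype ι'] (X : Ω → G) (Y : Ω' → G) (Z : Ω → ι) (W : Ω' → ι') :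
    tau η r₁ r₂ p q ≤ ent (prd μ ν) (fun t => (X t.1 + Y t.2, Z t.1, W t.2))
        - ent μ Z / 2 - ent μ (fun ω => (X ω, Z ω)) / 2
        - ent ν W / 2 - ent ν (fun ω => (Y ω, W ω)) / 2 +
      η * crd r₁ μ X Z + η * crd r₂ ν Y W := by
  rw [← rd_cnd_cnd hμ hν, ← rd_cnd hμ h.pm₁, ← rd_cnd hν h.pm₂, ← ent_cnd_const hμ Z
    (tau η r₁ r₂ p q)]
  have e1 : ∀ z, prb μ Z z ≠ 0 → tau η r₁ r₂ p q ≤
      ∑ w, prb ν W w * rd (cnd μ Z z) (cnd ν W w) X Y +
        η * rd r₁ (cnd μ Z z) (fun g => g) X +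
        η * ∑ w, prb ν W w * rd r₂ (cnd ν W w) (fun g => g) Y := by
    intro z hz
    rw [← ent_cnd_const hν W (tau η r₁ r₂ p q)]
    have e2 : ∀ w, prb ν W w ≠ 0 → tau η r₁ r₂ p q ≤ rd (cnd μ Z z) (cnd ν W w) X Y +
        η * rd r₁ (cnd μ Z z) (fun g => g) X + η * rd r₂ (cnd ν W w) (fun g => g) Y :=
      fun w hw => h.le_rv (hμ.cnd Z z hz) (hν.cnd W w hw) X Y
    refine le_trans (avg_le hν W _ _ e2) (le_of_eq ?_)
    simp_rw [mul_add]
    rw [Finset.sum_add_distrib, Finset.sum_add_distrib, ent_cnd_const hν, Finset.mul_sum]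
    congr 1
    refine Finset.sum_congr rfl (fun w _ => ?_)
    ring
  refine le_trans (avg_le hμ Z _ _ e1) (le_of_eq ?_)
  simp_rw [mul_add]
  rw [Finset.sum_add_distrib, Finset.sum_add_distrib, ent_cnd_const hμ]
  congr 1
  congr 1
  rw [Finset.mul_sum]
  refine Finset.sum_congr rfl (fun w _ => ?_)
  ring

/-- the distance of the minimiser is bounded by the distances after conditioning on the sum -/
theorem IsMn.le_pair (h2 : ∀ g : G, g + g = 0) (hη : 0 ≤ η) (h : IsMn η r₁ r₂ p q)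
    (hμ : PM μ) (A B Z : Ω → G) (hZ : ∀ ω, A ω + B ω = Z ω) :
    tau η r₁ r₂ p q ≤
      2 * ent μ A + 2 * ent μ B - 3 * ent μ (fun ω => (A ω, B ω)) + 2 * ent μ Z +
      η * (rd r₁ μ (fun g => g) A + (ent μ A + ent μ Z - ent μ (fun ω => (A ω, Z ω))) / 2) +
      η * (rd r₂ μ (fun g => g) B + (ent μ B + ent μ Z - ent μ (fun ω => (B ω, Z ω))) / 2) := by
  have h1 := bsg h2 hμ A B Z hZ
  have h3 := crd_le hμ h.pm₁ A Z
  have h4 := crd_le hμ h.pm₂ B Z
  have e1 : tau η r₁ r₂ p q ≤ ∑ z, prb μ Z z * rd (cnd μ Z z) (cnd μ Z z) A B +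
      η * crd r₁ μ A Z + η * crd r₂ μ B Z := by
    rw [← rd_cnd hμ h.pm₁, ← rd_cnd hμ h.pm₂, ← ent_cnd_const hμ Z (tau η r₁ r₂ p q)]
    have e2 : ∀ z, prb μ Z z ≠ 0 → tau η r₁ r₂ p q ≤ rd (cnd μ Z z) (cnd μ Z z) A B +
        η * rd r₁ (cnd μ Z z) (fun g => g) A + η * rd r₂ (cnd μ Z z) (fun g => g) B :=
      fun z hz => h.le_rv (hμ.cnd Z z hz) (hμ.cnd Z z hz) A B
    refine le_trans (avg_le hμ Z _ _ e2) (le_of_eq ?_)
    simp_rw [mul_add]
    rw [Finset.sum_add_distrib, Finset.sum_add_distrib, Finset.mul_sum, Finset.mul_sum]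
    congr 1
    · congr 1
      refine Finset.sum_congr rfl (fun w _ => ?_)
      ring
    · refine Finset.sum_congr rfl (fun w _ => ?_)
      ring
  have h5 := mul_le_mul_of_nonneg_left h3 hη
  have h6 := mul_le_mul_of_nonneg_left h4 hη
  linarith

/-- mutual information -/
noncomputable def mi {Ω : Type} [Fintype Ω] (μ : Ω → ℝ) {α β : Type} (f : Ω → α)
    (g : Ω → β) : ℝ := ent μ f + ent μ g - ent μ (fun ω => (f ω, g ω))

theorem mi_symm {α β : Type} (f : Ω → α) (g : Ω → β) : mi μ f g = mi μ g f := by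
  unfold mi
  have h : ent μ (fun ω => (f ω, g ω)) = ent μ (fun ω => (g ω, f ω)) := by
    refine ent_congr (fun ω ω' => ?_)
    simp only [Prod.mk.injEq]
    exact and_comm
  rw [h]
  ring

theorem mi_avg (hμ : PM μ) {ι α β : Type} [Fintype ι] (f : Ω → α) (g : Ω → β) (Z : Ω → ι) :
    ∑ z, prb μ Z z * mi (cnd μ Z z) f g = cmi μ f g Z := by
  unfold mi cmi
  simp_rw [mul_sub, mul_add]
  rw [Finset.sum_sub_distrib, Finset.sum_add_distrib, ent_cnd hμ, ent_cnd hμ, ent_cnd hμ]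
  have h : ent μ (fun ω => ((f ω, g ω), Z ω)) = ent μ (fun ω => (f ω, g ω, Z ω)) := by
    refine ent_congr (fun ω ω' => ?_)
    simp only [Prod.mk.injEq, and_assoc]
  rw [h]
  ring

/-- the endgame lemma for three variables with sum zero -/
theorem IsMn.endgame (h2 : ∀ g : G, g + g = 0) (hη : 0 ≤ η) (h : IsMn η r₁ r₂ p q)
    (hμ : PM μ) (A B C : Ω → G) (hZ : ∀ ω, A ω + B ω + C ω = 0) :
    tau η r₁ r₂ p q ≤ (mi μ A B + mi μ B C + mi μ C A) +
      η / 3 * ((mi μ A B + mi μ B C + mi μ C A) +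
        ((rd r₁ μ (fun g => g) A + rd r₁ μ (fun g => g) B + rd r₁ μ (fun g => g) C) +
         (rd r₂ μ (fun g => g) A + rd r₂ μ (fun g => g) B + rd r₂ μ (fun g => g) C))) := by
  have hAB : ∀ ω, A ω + B ω = C ω := fun ω => by
    have h3 := eq_add_of_add_eq h2 (hZ ω)
    rwa [zero_add] at h3
  have hBA : ∀ ω, B ω + A ω = C ω := fun ω => by rw [add_comm, hAB]
  have hBC : ∀ ω, B ω + C ω = A ω := fun ω => by
    rw [← hAB, add_comm (A ω), add_self_cancel_left h2]
  have hCB : ∀ ω, C ω + B ω = A ω := fun ω => by rw [add_comm, hBC]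
  have hCA : ∀ ω, C ω + A ω = B ω := fun ω => by
    rw [← hAB, add_comm, add_self_cancel_left h2]
  have hAC : ∀ ω, A ω + C ω = B ω := fun ω => by rw [add_comm, hCA]
  have s1 := h.le_pair h2 hη hμ A B C hAB
  have s2 := h.le_pair h2 hη hμ B A C hBA
  have s3 := h.le_pair h2 hη hμ B C A hBC
  have s4 := h.le_pair h2 hη hμ C B A hCB
  have s5 := h.le_pair h2 hη hμ C A B hCA
  have s6 := h.le_pair h2 hη hμ A C B hAC
  have m1 := mi_symm (μ := μ) A B
  have m2 := mi_symm (μ := μ) B C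
  have m3 := mi_symm (μ := μ) C A
  unfold mi at *
  set Dab := ent μ (fun ω => (A ω, B ω)) with hDab
  set Dba := ent μ (fun ω => (B ω, A ω)) with hDba
  set Dbc := ent μ (fun ω => (B ω, C ω)) with hDbc
  set Dcb := ent μ (fun ω => (C ω, B ω)) with hDcb
  set Dca := ent μ (fun ω => (C ω, A ω)) with hDca
  set Dac := ent μ (fun ω => (A ω, C ω)) with hDac
  have u1 : Dba = Dab := by linarith
  have u2 : Dcb = Dbc := by linarith
  have u3 : Dac = Dca := by linarith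
  rw [u1] at s3
  rw [u2] at s4 s5 s6
  rw [u3] at s1 s2 s6
  linarith

end use

end Pool.Agent.Lib.PFR
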