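import Pool.Agent.Lib.PFR.Main

/-!
# PFR.PFR1: export forms of the theorem
-/

set_option autoImplicit false

namespace Pool.Agent.Lib.PFR

open scoped Pointwise

open scoped Classical in
/-- the polynomial Freiman-Ruzsa theorem in characteristic two, popular coset form -/
def PFR1 (C : ℕ) : Prop :=
  ∀ (G : Type) [AddCommGroup G] [Fintype G] [DecidableEq G], (∀ x : G, x + x = 0) →
    ∀ (A : Finset G), A.Nonempty → ∀ M : ℝ, ((A + A).card : ℝ) ≤ M * A.card →
      ∃ (H : AddSubgroup G) (x : G),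
        (A.card : ℝ) ≤ M ^ C * ((A.filter (fun a => a - x ∈ H)).card : ℝ) ∧
        (Nat.card H : ℝ) ≤ M ^ C * (A.card : ℝ)

theorem pfr1 : PFR1 11 := by
  classical
  intro G _ _ _ h2 A hA M hM
  obtain ⟨H, x, _, h3, h4⟩ := pfr h2 A hA M hM
  have h0 : (0 : ℝ) < A.card := by exact_mod_cast hA.card_pos
  have hM0 : 0 < M := by
    have h1 : (0 : ℝ) < (A + A).card := by exact_mod_cast (hA.add hA).card_pos
    by_contra h
    push Not at h
    nlinarith
  have e1 : coi A H x = A.filter (fun a => a - x ∈ H) := by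
    ext a
    rw [mem_coi, Finset.mem_filter, sub_eq_neg_add]
  refine ⟨H, x, ?_, ?_⟩
  · rw [← e1]
    exact h3
  · refine le_trans h4 (mul_le_mul_of_nonneg_left ?_ (pow_pos hM0 11).le)
    have h5 : (coi A H x).card ≤ A.card := Finset.card_le_card (fun a ha => (mem_coi.1 ha).1)
    exact_mod_cast h5

end Pool.Agent.Lib.PFR
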