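import Pool.Agent.Lib.PFR.Cnd

/-!
# PFR.Rd: the Ruzsa distance in groups of exponent two
-/

set_option autoImplicit false
set_option linter.unusedSectionVars false

namespace Pool.Agent.Lib.PFR

open Real

variable {G : Type} [AddCommGroup G] [Fintype G]

/-- the Ruzsa distance (in characteristic two) of independent `X` and `Y` -/
noncomputable def rd {Ω Ω' : Type} [Fintype Ω] [Fintype Ω'] (μ : Ω → ℝ) (ν : Ω' → ℝ)
    (X : Ω → G) (Y : Ω' → G) : ℝ :=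
  ent (prd μ ν) (fun w => X w.1 + Y w.2) - ent μ X / 2 - ent ν Y / 2

/-- the distance of two laws -/
noncomputable def dl (p q : G → ℝ) : ℝ := rd p q (fun g => g) (fun g => g)

/-- the conditional distance `d[ρ ; X | Z]` -/
noncomputable def crd {Ω ι : Type} [Fintype Ω] (ρ : G → ℝ) (μ : Ω → ℝ) (X : Ω → G)
    (Z : Ω → ι) : ℝ :=
  ent (prd ρ μ) (fun w => (w.1 + X w.2, Z w.2)) - ent μ Z / 2 - ent ρ (fun g => g) / 2 -
    ent μ (fun ω => (X ω, Z ω)) / 2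

section law

variable {Ω Ω' : Type} [Fintype Ω] [Fintype Ω'] {μ : Ω → ℝ} {ν : Ω' → ℝ}

theorem prb_prd_eq {α β : Type} (f : Ω → α) (g : Ω' → β) :
    prb (prd μ ν) (fun w => (f w.1, g w.2)) = prd (prb μ f) (prb ν g) := by
  funext t
  exact prb_prd f g t.1 t.2

theorem rd_eq_dl (X : Ω → G) (Y : Ω' → G) : rd μ ν X Y = dl (prb μ X) (prb ν Y) := by
  unfold dl rd
  rw [← ent_comp (μ := μ) X (fun g : G => g), ← ent_comp (μ := ν) Y (fun g : G => g)]
  have h := ent_comp (μ := prd μ ν) (fun w => (X w.1, Y w.2)) (fun t : G × G => t.1 + t.2)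
  rw [prb_prd_eq] at h
  rw [← h]

theorem rd_congr {Ω₁ Ω₁' : Type} [Fintype Ω₁] [Fintype Ω₁'] {μ₁ : Ω₁ → ℝ} {ν₁ : Ω₁' → ℝ}
    {X : Ω → G} {Y : Ω' → G} {X₁ : Ω₁ → G} {Y₁ : Ω₁' → G} (hX : prb μ X = prb μ₁ X₁)
    (hY : prb ν Y = prb ν₁ Y₁) : rd μ ν X Y = rd μ₁ ν₁ X₁ Y₁ := by
  rw [rd_eq_dl, rd_eq_dl, hX, hY]

theorem rd_symm (X : Ω → G) (Y : Ω' → G) : rd μ ν X Y = rd ν μ Y X := by
  unfold rd
  have h : ent (prd μ ν) (fun w => X w.1 + Y w.2) = ent (prd ν μ) (fun w => Y w.1 + X w.2) := by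
    have h1 := ent_equiv (μ := prd μ ν) (ν := prd ν μ) (Equiv.prodComm Ω Ω')
      (fun w => mul_comm _ _) (fun w => Y w.1 + X w.2)
    rw [← h1]
    refine ent_congr (fun ω ω' => ?_)
    show X ω.1 + Y ω.2 = X ω'.1 + Y ω'.2 ↔ Y ω.2 + X ω.1 = Y ω'.2 + X ω'.1
    rw [add_comm, add_comm (X ω'.1)]
  rw [h]
  ring

theorem dl_symm (p q : G → ℝ) : dl p q = dl q p := rd_symm _ _

/-- the sum is at least as large as the summands -/
theorem ent_le_sum (hμ : PM μ) (hν : PM ν) (X : Ω → G) (Y : Ω' → G) :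
    ent ν Y ≤ ent (prd μ ν) (fun w => X w.1 + Y w.2) := by
  have h1 := ent_pair_le (hμ.prd hν) (fun w => X w.1 + Y w.2) (fun w => X w.1)
  have h2 : ent (prd μ ν) (fun w => (X w.1 + Y w.2, X w.1)) =
      ent (prd μ ν) (fun w => (X w.1, Y w.2)) := by
    refine ent_congr (fun w w' => ?_)
    simp only [Prod.mk.injEq]
    constructor
    · rintro ⟨h, h'⟩
      rw [h'] at h
      exact ⟨h', add_left_cancel h⟩
    · rintro ⟨h, h'⟩
      rw [h, h']
      exact ⟨rfl, rfl⟩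
  rw [h2, ent_prd hμ hν, ent_fst hν] at h1
  linarith

theorem ent_le_sum' (hμ : PM μ) (hν : PM ν) (X : Ω → G) (Y : Ω' → G) :
    ent μ X ≤ ent (prd μ ν) (fun w => X w.1 + Y w.2) := by
  have h1 := ent_pair_le (hμ.prd hν) (fun w => X w.1 + Y w.2) (fun w => Y w.2)
  have h2 : ent (prd μ ν) (fun w => (X w.1 + Y w.2, Y w.2)) =
      ent (prd μ ν) (fun w => (X w.1, Y w.2)) := by
    refine ent_congr (fun w w' => ?_)
    simp only [Prod.mk.injEq]
    constructor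
    · rintro ⟨h, h'⟩
      rw [h'] at h
      exact ⟨add_right_cancel h, h'⟩
    · rintro ⟨h, h'⟩
      rw [h, h']
      exact ⟨rfl, rfl⟩
  rw [h2, ent_prd hμ hν, ent_snd hμ] at h1
  linarith

theorem rd_nonneg (hμ : PM μ) (hν : PM ν) (X : Ω → G) (Y : Ω' → G) : 0 ≤ rd μ ν X Y := by
  have h1 := ent_le_sum hμ hν X Y
  have h2 := ent_le_sum' hμ hν X Y
  unfold rd
  linarith

/-- entropies differ by at most twice the distance -/
theorem abs_ent_sub_le (hμ : PM μ) (hν : PM ν) (X : Ω → G) (Y : Ω' → G) :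
    |ent μ X - ent ν Y| ≤ 2 * rd μ ν X Y := by
  have h1 := ent_le_sum hμ hν X Y
  have h2 := ent_le_sum' hμ hν X Y
  unfold rd
  rw [abs_le]
  constructor <;> linarith

end law

section cond

variable {Ω Ω' : Type} [Fintype Ω] [Fintype Ω'] {μ : Ω → ℝ} {ν : Ω' → ℝ}

/-- averages of conditional distances, one condition -/
theorem rd_cnd (hμ : PM μ) {ρ : G → ℝ} (hρ : PM ρ) {ι : Type} [Fintype ι]
    (X : Ω → G) (Z : Ω → ι) :
    ∑ z, prb μ Z z * rd ρ (cnd μ Z z) (fun g => g) X = crd ρ μ X Z := by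
  unfold rd crd
  simp_rw [mul_sub, ← mul_div_assoc]
  rw [Finset.sum_sub_distrib, Finset.sum_sub_distrib, ← Finset.sum_div, ← Finset.sum_div,
    ent_prd_cnd_snd hρ hμ, ent_cnd hμ, ent_cnd_const hμ]
  ring

/-- averages of conditional distances, two conditions -/
theorem rd_cnd_cnd (hμ : PM μ) (hν : PM ν) {ι ι' : Type} [Fintype ι] [Fintype ι']
    (X : Ω → G) (Y : Ω' → G) (Z : Ω → ι) (W : Ω' → ι') :
    ∑ z, prb μ Z z * ∑ w, prb ν W w * rd (cnd μ Z z) (cnd ν W w) X Y =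
      ent (prd μ ν) (fun t => (X t.1 + Y t.2, Z t.1, W t.2))
        - ent μ Z / 2 - ent μ (fun ω => (X ω, Z ω)) / 2
        - ent ν W / 2 - ent ν (fun ω => (Y ω, W ω)) / 2 := by
  unfold rd
  have h1 : ∀ z, ∑ w, prb ν W w * (ent (prd (cnd μ Z z) (cnd ν W w))
      (fun t => X t.1 + Y t.2) - ent (cnd μ Z z) X / 2 - ent (cnd ν W w) Y / 2) =
      ∑ w, prb ν W w * ent (prd (cnd μ Z z) (cnd ν W w)) (fun t => X t.1 + Y t.2)
        - ent (cnd μ Z z) X / 2 - (ent ν (fun ω => (Y ω, W ω)) - ent ν W) / 2 := by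
    intro z
    simp_rw [mul_sub, ← mul_div_assoc]
    rw [Finset.sum_sub_distrib, Finset.sum_sub_distrib, ← Finset.sum_div, ← Finset.sum_div,
      ent_cnd hν, ent_cnd_const hν]
  simp_rw [h1, mul_sub, ← mul_div_assoc]
  rw [Finset.sum_sub_distrib, Finset.sum_sub_distrib, ← Finset.sum_div, ← Finset.sum_div,
    ent_prd_cnd hμ hν, ent_cnd hμ]
  simp_rw [mul_sub]
  rw [Finset.sum_sub_distrib, ent_cnd_const hμ, ent_cnd_const hμ]
  ring

/-- conditioning costs half of the mutual information -/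
theorem crd_le (hμ : PM μ) {ρ : G → ℝ} (hρ : PM ρ) {ι : Type} (X : Ω → G) (Z : Ω → ι) :
    crd ρ μ X Z ≤ rd ρ μ (fun g => g) X +
      (ent μ X + ent μ Z - ent μ (fun ω => (X ω, Z ω))) / 2 := by
  have h1 := ent_pair_le (hρ.prd hμ) (fun w => w.1 + X w.2) (fun w => Z w.2)
  rw [ent_snd hρ] at h1
  unfold crd rd
  linarith

end cond

section kaimanovich

variable {Ω Ω' : Type} [Fintype Ω] [Fintype Ω'] {μ : Ω → ℝ} {ν : Ω' → ℝ}

/-- Kaimanovich, Vershik, Madiman -/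
theorem kvm (hμ : PM μ) (hν : PM ν) {ρ : G → ℝ} (hρ : PM ρ) (Y : Ω → G) (Z : Ω' → G) :
    ent (prd ρ (prd μ ν)) (fun w => w.1 + (Y w.2.1 + Z w.2.2)) + ent μ Y ≤
      ent (prd ρ μ) (fun w => w.1 + Y w.2) + ent (prd μ ν) (fun w => Y w.1 + Z w.2) := by
  have hP := hρ.prd (hμ.prd hν)
  have h1 := ent_submod hP (fun w => w.1) (fun w => Z w.2.2)
    (fun w => w.1 + (Y w.2.1 + Z w.2.2))
  have e1 : ent (prd ρ (prd μ ν)) (fun w => (w.1, Z w.2.2, w.1 + (Y w.2.1 + Z w.2.2))) =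
      ent ρ (fun g => g) + (ent μ Y + ent ν Z) := by
    rw [← ent_prd hμ hν Y Z, ← ent_prd hρ (hμ.prd hν) (fun g => g)
      (fun w => (Y w.1, Z w.2))]
    refine ent_congr (fun w w' => ?_)
    simp only [Prod.mk.injEq]
    constructor
    · rintro ⟨a1, a2, a3⟩
      rw [a1, a2] at a3
      exact ⟨a1, add_right_cancel (add_left_cancel a3), a2⟩
    · rintro ⟨a1, a2, a3⟩
      rw [a1, a2, a3]
      exact ⟨rfl, rfl, rfl⟩
  have e2 : ent (prd ρ (prd μ ν)) (fun w => (w.1, w.1 + (Y w.2.1 + Z w.2.2))) =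
      ent ρ (fun g => g) + ent (prd μ ν) (fun w => Y w.1 + Z w.2) := by
    rw [← ent_prd hρ (hμ.prd hν) (fun g => g) (fun w => Y w.1 + Z w.2)]
    refine ent_congr (fun w w' => ?_)
    simp only [Prod.mk.injEq]
    constructor
    · rintro ⟨a1, a3⟩
      rw [a1] at a3
      exact ⟨a1, add_left_cancel a3⟩
    · rintro ⟨a1, a2⟩
      rw [a1, a2]
      exact ⟨rfl, rfl⟩
  have e3 : ent (prd ρ (prd μ ν)) (fun w => (Z w.2.2, w.1 + (Y w.2.1 + Z w.2.2))) =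
      ent (prd ρ μ) (fun w => w.1 + Y w.2) + ent ν Z := by
    rw [← ent_prd (hρ.prd hμ) hν (fun w => w.1 + Y w.2) Z]
    have h2 := ent_equiv (μ := prd (prd ρ μ) ν) (ν := prd ρ (prd μ ν))
      (Equiv.prodAssoc G Ω Ω') (fun w => mul_assoc _ _ _)
      (fun w => (Z w.2.2, w.1 + (Y w.2.1 + Z w.2.2)))
    rw [← h2]
    refine ent_congr (fun w w' => ?_)
    simp only [Equiv.prodAssoc_apply, Prod.mk.injEq]
    constructor
    · rintro ⟨a1, a3⟩
      rw [a1, ← add_assoc, ← add_assoc] at a3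
      exact ⟨add_right_cancel a3, a1⟩
    · rintro ⟨a1, a2⟩
      rw [a2, ← add_assoc, ← add_assoc, a1]
      exact ⟨rfl, rfl⟩
  rw [e1, e2, e3] at h1
  linarith

/-- the distance to a sum -/
theorem rd_add_le (hμ : PM μ) (hν : PM ν) {ρ : G → ℝ} (hρ : PM ρ) (Y : Ω → G) (Z : Ω' → G) :
    rd ρ (prd μ ν) (fun g => g) (fun w => Y w.1 + Z w.2) ≤ rd ρ μ (fun g => g) Y +
      (ent (prd μ ν) (fun w => Y w.1 + Z w.2) - ent μ Y) / 2 := by
  have h := kvm hμ hν hρ Y Z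
  unfold rd
  linarith

theorem rd_add_le' (hμ : PM μ) (hν : PM ν) {ρ : G → ℝ} (hρ : PM ρ) (Y : Ω → G) (Z : Ω' → G) :
    rd ρ (prd μ ν) (fun g => g) (fun w => Y w.1 + Z w.2) ≤ rd ρ ν (fun g => g) Z +
      (ent (prd μ ν) (fun w => Y w.1 + Z w.2) - ent ν Z) / 2 := by
  have h := rd_add_le hν hμ hρ Z Y
  have h1 : prb (prd μ ν) (fun w => Y w.1 + Z w.2) = prb (prd ν μ) (fun w => Z w.1 + Y w.2) := by
    have h2 := prb_equiv (μ := prd μ ν) (ν := prd ν μ) (Equiv.prodComm Ω Ω')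
      (fun w => mul_comm _ _)
    funext g
    have h3 := prb_comp (μ := prd μ ν) (Equiv.prodComm Ω Ω')
      (fun w : Ω' × Ω => Z w.1 + Y w.2) g
    rw [h2] at h3
    rw [← h3]
    refine prb_congr (fun ω => ?_)
    show Y ω.1 + Z ω.2 = g ↔ Z ω.2 + Y ω.1 = g
    rw [add_comm]
  have h4 : ent (prd μ ν) (fun w => Y w.1 + Z w.2) = ent (prd ν μ) (fun w => Z w.1 + Y w.2) := by
    rw [ent_eq_sum, ent_eq_sum, h1]
  rw [h4, rd_congr rfl h1]
  exact h

end kaimanovich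

end Pool.Agent.Lib.PFR
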