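import Pool.Agent.Lib.PFR.End

/-!
# PFR.Zero: distance zero means uniform on cosets; the entropic theorem
-/

set_option autoImplicit false
set_option linter.unusedSectionVars false
set_option linter.unusedVariables false

namespace Pool.Agent.Lib.PFR

open Real

variable {G : Type} [AddCommGroup G] [Fintype G]

theorem prb_sum_eq (h2 : ∀ g : G, g + g = 0) (p q : G → ℝ) (g : G) :
    prb (prd p q) (fun w => w.1 + w.2) g = ∑ y, q y * p (g + y) := by
  classical
  unfold prb prd
  rw [Fintype.sum_prod_type_right]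
  refine Finset.sum_congr rfl (fun y _ => ?_)
  dsimp only
  have h1 : ∀ x, (if x + y = g then p x * q y else 0) =
      if x = g + y then q y * p (g + y) else 0 := by
    intro x
    by_cases h : x + y = g
    · have h3 : x = g + y := eq_add_of_add_eq h2 h
      rw [if_pos h, if_pos h3, h3, mul_comm]
    · rw [if_neg h, if_neg (fun h3 => h (by rw [h3, add_assoc, h2, add_zero]))]
  rw [Finset.sum_congr rfl (fun x _ => h1 x), Finset.sum_ite_eq', if_pos (Finset.mem_univ _)]

/-- at distance zero translates by the support of `q` agree -/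
theorem law_inv (h2 : ∀ g : G, g + g = 0) {p q : G → ℝ} (hp : PM p) (hq : PM q)
    (h : dl p q = 0) (y : G) (hy : q y ≠ 0) (g : G) :
    p (g + y) = prb (prd p q) (fun w => w.1 + w.2) g := by
  have e0 : hs p q ≤ hh p := by
    have h3 := ent_le_sum hp hq (fun g : G => g) (fun g : G => g)
    have h4 := ent_le_sum' hp hq (fun g : G => g) (fun g : G => g)
    have h5 := dl_eq p q
    unfold hs hh at *
    linarith
  have e1 : hh p = ∑ g, ∑ y, q y * negMulLog (p (g + y)) := by
    rw [Finset.sum_comm]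
    simp_rw [← Finset.mul_sum]
    have h3 : ∀ y, ∑ g, negMulLog (p (g + y)) = hh p := by
      intro y
      unfold hh
      rw [ent_eq_sum, prb_id]
      exact Fintype.sum_equiv (Equiv.addRight y) _ _ (fun g => rfl)
    simp_rw [h3]
    rw [← Finset.sum_mul, hq.sum, one_mul]
  have e2 : hs p q = ∑ g, negMulLog (∑ y, q y * p (g + y)) := by
    unfold hs
    rw [ent_eq_sum]
    simp_rw [prb_sum_eq h2]
  have e3 : ∀ g, ∑ y, q y * negMulLog (p (g + y)) ≤ negMulLog (∑ y, q y * p (g + y)) := by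
    intro g
    have h3 := concaveOn_negMulLog.le_map_sum (t := Finset.univ) (w := q)
      (p := fun y => p (g + y)) (fun i _ => hq.nonneg i) hq.sum
      (fun i _ => hp.nonneg _)
    simpa only [smul_eq_mul] using h3
  have e4 : ∀ g ∈ Finset.univ, ∑ y, q y * negMulLog (p (g + y)) =
      negMulLog (∑ y, q y * p (g + y)) := by
    refine (Finset.sum_eq_sum_iff_of_le (fun g _ => e3 g)).1 ?_
    refine le_antisymm (Finset.sum_le_sum (fun g _ => e3 g)) ?_
    rw [← e1, ← e2]
    exact e0
  have e5 := (strictConcaveOn_negMulLog.map_sum_eq_iff' (t := Finset.univ) (w := q)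
    (p := fun y => p (g + y)) (fun i _ => hq.nonneg i) hq.sum
      (fun i _ => hp.nonneg _)).1 (by
        simp only [smul_eq_mul]
        exact (e4 g (Finset.mem_univ _)).symm) y (Finset.mem_univ _) hy
  rw [prb_sum_eq h2]
  simpa only [smul_eq_mul] using e5

/-- the stabiliser of a function -/
def stab (h2 : ∀ g : G, g + g = 0) (p : G → ℝ) : AddSubgroup G where
  carrier := {h | ∀ g, p (g + h) = p g}
  zero_mem' := fun g => by rw [add_zero]
  add_mem' := by
    intro a b ha hb g
    rw [← add_assoc, hb, ha]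
  neg_mem' := by
    intro a ha g
    have h3 : -a = a := by
      rw [neg_eq_iff_add_eq_zero]
      exact h2 a
    rw [h3]
    exact ha g

theorem mem_stab (h2 : ∀ g : G, g + g = 0) (p : G → ℝ) (h : G) :
    h ∈ stab h2 p ↔ ∀ g, p (g + h) = p g := Iff.rfl

open scoped Classical in
/-- the uniform law on a coset -/
noncomputable def uco (H : AddSubgroup G) (x : G) : G → ℝ :=
  fun g => if x + g ∈ H then ((Nat.card H : ℝ))⁻¹ else 0

theorem exists_ne_zero {p : G → ℝ} (hp : PM p) : ∃ x, p x ≠ 0 := by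
  by_contra hcon
  push Not at hcon
  have h3 := hp.sum
  rw [Finset.sum_congr rfl (fun x _ => hcon x)] at h3
  simp at h3

theorem supp_sub (h2 : ∀ g : G, g + g = 0) {p q : G → ℝ} (hp : PM p) (hq : PM q)
    (h : dl p q = 0) {y₀ y : G} (hy₀ : q y₀ ≠ 0) (hy : q y ≠ 0) : y₀ + y ∈ stab h2 p := by
  intro g
  have e1 := law_inv h2 hp hq h y hy (g + y₀)
  have e2 := law_inv h2 hp hq h y₀ hy₀ (g + y₀)
  rw [← e2] at e1
  rw [← add_assoc, e1, add_assoc, h2, add_zero]

theorem stab_le (h2 : ∀ g : G, g + g = 0) {p q : G → ℝ} (hp : PM p) (hq : PM q)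
    (h : dl p q = 0) : stab h2 p ≤ stab h2 q := by
  obtain ⟨x₀, hx₀⟩ := exists_ne_zero hp
  intro a ha
  have e1 : p (x₀ + a) ≠ 0 := by
    rw [ha x₀]
    exact hx₀
  have e2 := supp_sub h2 hq hp ((dl_symm q p).trans h) hx₀ e1
  rwa [add_self_cancel_left h2] at e2

theorem eq_uco (h2 : ∀ g : G, g + g = 0) {p : G → ℝ} (hp : PM p) {x₀ : G}
    (hx : ∀ x, p x ≠ 0 → x₀ + x ∈ stab h2 p) (hx₀ : p x₀ ≠ 0) :
    p = uco (stab h2 p) x₀ := by
  classical
  have e1 : ∀ g, p g = if x₀ + g ∈ stab h2 p then p x₀ else 0 := by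
    intro g
    by_cases h : x₀ + g ∈ stab h2 p
    · rw [if_pos h]
      have h3 := h x₀
      rwa [add_self_cancel_left h2] at h3
    · rw [if_neg h]
      by_contra h3
      exact h (hx g h3)
  have e2 : (Nat.card (stab h2 p) : ℝ) * p x₀ = 1 := by
    rw [← hp.sum, Finset.sum_congr rfl (fun g _ => e1 g)]
    have e3 : (∑ g, if x₀ + g ∈ stab h2 p then p x₀ else 0) =
        ∑ g, if g ∈ stab h2 p then p x₀ else 0 :=
      Fintype.sum_equiv (Equiv.addLeft x₀) _ _ (fun g => rfl)
    rw [e3, ← Finset.sum_filter, Finset.sum_const, nsmul_eq_mul]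
    congr 2
    rw [Nat.card_eq_fintype_card, ← Fintype.card_subtype]
  funext g
  rw [e1 g]
  unfold uco
  have e4 : p x₀ = ((Nat.card (stab h2 p) : ℝ))⁻¹ := eq_inv_of_mul_eq_one_right e2
  rw [← e4]

/-- distance zero means uniform on cosets of the same subgroup -/
theorem exists_coset (h2 : ∀ g : G, g + g = 0) {p q : G → ℝ} (hp : PM p) (hq : PM q)
    (h : dl p q = 0) :
    ∃ (H : AddSubgroup G) (x y : G), p = uco H x ∧ q = uco H y := by
  obtain ⟨x₀, hx₀⟩ := exists_ne_zero hp
  obtain ⟨y₀, hy₀⟩ := exists_ne_zero hq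
  have h' := (dl_symm q p).trans h
  have e : stab h2 p = stab h2 q :=
    le_antisymm (stab_le h2 hp hq h) (stab_le h2 hq hp h')
  refine ⟨stab h2 p, x₀, y₀, eq_uco h2 hp (fun x hx => ?_) hx₀, ?_⟩
  · rw [e]
    exact supp_sub h2 hq hp h' hx₀ hx
  · have h3 := eq_uco h2 hq (x₀ := y₀) (fun y hy => by
      rw [← e]
      exact supp_sub h2 hp hq h hy₀ hy) hy₀
    rw [← e] at h3
    exact h3

/-- the uniform law on a subgroup -/
noncomputable def usg (H : AddSubgroup G) : G → ℝ := uco H 0

theorem card_pos_sg (H : AddSubgroup G) : 0 < (Nat.card H : ℝ) := by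
  have : 0 < Nat.card H := Nat.card_pos
  exact_mod_cast this

theorem pm_uco (H : AddSubgroup G) (x : G) : PM (uco H x) := by
  classical
  constructor
  · intro g
    unfold uco
    split_ifs
    · exact inv_nonneg.2 (card_pos_sg H).le
    · exact le_refl _
  · unfold uco
    have e3 : (∑ g, if x + g ∈ H then ((Nat.card H : ℝ))⁻¹ else 0) =
        ∑ g, if g ∈ H then ((Nat.card H : ℝ))⁻¹ else 0 :=
      Fintype.sum_equiv (Equiv.addLeft x) _ _ (fun g => rfl)
    rw [e3, ← Finset.sum_filter, Finset.sum_const, nsmul_eq_mul]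
    have e4 : ((Finset.univ.filter (fun g => g ∈ H)).card : ℝ) = (Nat.card H : ℝ) := by
      rw [Nat.card_eq_fintype_card, ← Fintype.card_subtype]
    rw [e4, mul_inv_cancel₀ (card_pos_sg H).ne']

/-- translations do not matter -/
theorem dl_uco (r : G → ℝ) (H : AddSubgroup G) (x : G) : dl r (uco H x) = dl r (usg H) := by
  have e1 : uco H x = prb (usg H) (fun g => -x + g) := by
    have h3 := prb_equiv (μ := usg H) (ν := uco H x) (Equiv.addLeft (-x)) (fun g => by
      unfold usg uco
      rw [Equiv.coe_addLeft, ← add_assoc, add_neg_cancel])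
    exact h3.symm
  have e2 : dl r (uco H x) = rd r (usg H) (fun g => g) (fun g => -x + g) := by
    rw [rd_eq_dl, prb_id, e1]
  rw [e2]
  unfold dl rd
  have e3 : ent (prd r (usg H)) (fun w => w.1 + (-x + w.2)) =
      ent (prd r (usg H)) (fun w => w.1 + w.2) := by
    refine ent_congr (fun w w' => ?_)
    have e4 : ∀ w : G × G, w.1 + (-x + w.2) = (w.1 + w.2) + -x := fun w => by abel
    rw [e4, e4]
    exact add_left_inj (-x)
  have e5 : ent (usg H) (fun g => -x + g) = ent (usg H) (fun g => g) :=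
    ent_congr (fun w w' => add_right_inj (-x))
  rw [e3, e5]

/-- the entropic polynomial Freiman-Ruzsa theorem in characteristic two -/
theorem pfr_ent (h2 : ∀ g : G, g + g = 0) (r₁ r₂ : G → ℝ) (h₁ : PM r₁) (h₂ : PM r₂) :
    ∃ H : AddSubgroup G, dl r₁ (usg H) + dl r₂ (usg H) ≤ 11 * dl r₁ r₂ := by
  obtain ⟨p, q, h⟩ := exists_isMn (1 / 9) r₁ r₂ h₁ h₂
  have e1 := h.dl_eq_zero h2
  obtain ⟨H, x, y, hx, hy⟩ := exists_coset h2 h.pmp h.pmq e1
  refine ⟨H, ?_⟩
  have e2 := h.le r₂ r₁ h₂ h₁
  unfold tau at e2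
  rw [e1, hx, hy, dl_uco, dl_uco, dl_symm r₂ r₁] at e2
  linarith

end Pool.Agent.Lib.PFR
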